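import Pool.Agent.U731.WH.Wr

/-!
# Amalgamated products over isolated subgroups
-/

set_option autoImplicit false
set_option linter.unusedSectionVars false

namespace Pool.Agent.U731.WH

open Monoid PushoutI
open scoped Classical

/-- isolated subgroups -/
def Isolated {W : Type} [Group W] (L : Subgroup W) : Prop :=
  ∀ (w : W) (l : ℕ), l ≠ 0 → w ^ l ∈ L → w ∈ L

lemma Isolated.action {W : Type} [Group W] {L : Subgroup W} (h : Isolated L) (b : W) (x : W ⧸ L)
    (l : ℕ) (hl : l ≠ 0) (hx : b ^ l • x = x) : b • x = x := by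
  obtain ⟨g, rfl⟩ := QuotientGroup.mk_surjective x
  have h1 : ((b ^ l * g : W) : W ⧸ L) = g := hx
  have h2 : (g⁻¹ * b * g) ^ l ∈ L := by
    have h3 := QuotientGroup.eq.1 h1.symm
    have h4 : (g⁻¹ * b * g) ^ l = g⁻¹ * (b ^ l * g) := by
      have h5 := conj_pow (i := l) (a := g⁻¹) (b := b)
      rw [inv_inv] at h5
      rw [h5, mul_assoc]
    rwa [h4]
  have h3 := h _ l hl h2
  show ((b * g : W) : W ⧸ L) = g
  apply Eq.symm
  rw [QuotientGroup.eq]
  rwa [← mul_assoc]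

section step

variable {ι : Type} {G : ι → Type} [∀ i, Group (G i)] {H : Type} [Group H] {φ : ∀ i, H →* G i}

/-- the product of a word -/
noncomputable def wprod (φ : ∀ i, H →* G i) (l : List (Σ i, G i)) : PushoutI φ :=
  (l.map fun s => of (φ := φ) s.1 s.2).prod

/-- reduced words -/
def Red (φ : ∀ i, H →* G i) (l : List (Σ i, G i)) : Prop :=
  (∀ s ∈ l, s.2 ∉ (φ s.1).range) ∧ l.IsChain (fun s s' => s.1 ≠ s'.1)

/-- the homomorphism detects the reduced words of length at most `m` -/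
def Detect {W : Type} [Group W] (Φ : PushoutI φ →* W) (m : ℕ) : Prop :=
  ∀ l : List (Σ i, G i), Red φ l → l ≠ [] → l.length ≤ m →
    Φ (wprod φ l) ∉ (Φ.comp (base φ)).range

lemma wprod_cons (s : Σ i, G i) (l : List (Σ i, G i)) :
    wprod φ (s :: l) = of s.1 s.2 * wprod φ l := by
  unfold wprod
  rw [List.map_cons, List.prod_cons]

lemma wprod_nil : wprod φ [] = 1 := rfl

lemma Red.of_pre {q l : List (Σ i, G i)} (h : Red φ l) (hq : q <+: l) : Red φ q :=
  ⟨fun s hs => h.1 s (hq.subset hs), by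
    obtain ⟨t, rfl⟩ := hq
    exact h.2.left_of_append⟩

lemma Red.tail {s : Σ i, G i} {l : List (Σ i, G i)} (h : Red φ (s :: l)) : Red φ l :=
  ⟨fun t ht => h.1 t (List.mem_cons_of_mem _ ht), h.2.tail⟩

variable {W : Type} [Group W] (Φ : PushoutI φ →* W)

/-- the image of the base -/
abbrev LL : Subgroup W := (Φ.comp (base φ)).range

/-- the coefficients -/
abbrev AA (ι : Type) : Type := Multiplicative (ι →₀ ℤ)

/-- the delta function -/
noncomputable def dl (i : ι) (x : W ⧸ LL Φ) : AA ι :=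
  if x = ((1 : W) : W ⧸ LL Φ) then Multiplicative.ofAdd (Finsupp.single i 1) else 1

/-- the conjugating element -/
noncomputable def tt (i : ι) : PW (AA ι) (W ⧸ LL Φ) W := ⟨dl Φ i, 1⟩

lemma conj_left (i : ι) (w : W) (x : W ⧸ LL Φ) :
    (tt Φ i * PW.inr w * (tt Φ i)⁻¹).left x = dl Φ i x * (dl Φ i (w⁻¹ • x))⁻¹ := by
  rw [PW.mul_left, PW.mul_left, PW.inr_left, mul_one, PW.inv_left, PW.mul_right, PW.inr_right]
  have h1 : (tt Φ i).right = 1 := rfl
  rw [h1, one_mul, one_smul]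
  rfl

lemma conj_right (i : ι) (w : W) : (tt Φ i * PW.inr w * (tt Φ i)⁻¹).right = w := by
  rw [PW.mul_right, PW.mul_right, PW.inr_right, PW.inv_right]
  have h1 : (tt Φ i).right = 1 := rfl
  rw [h1, one_mul, inv_one, mul_one]

lemma inv_smul_eq (w : W) (x : W ⧸ LL Φ) : w⁻¹ • x = ((1 : W) : W ⧸ LL Φ) ↔ x = (w : W ⧸ LL Φ) := by
  rw [inv_smul_eq_iff]
  have h1 : w • ((1 : W) : W ⧸ LL Φ) = ((w * 1 : W) : W ⧸ LL Φ) := rfl
  rw [h1, mul_one]

lemma dl_ne {i : ι} {x : W ⧸ LL Φ} (h : x ≠ ((1 : W) : W ⧸ LL Φ)) : dl Φ i x = 1 := if_neg h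

lemma dl_inv_ne {i : ι} {w : W} {x : W ⧸ LL Φ} (h : x ≠ (w : W ⧸ LL Φ)) :
    dl Φ i (w⁻¹ • x) = 1 := by
  apply dl_ne
  intro h1
  exact h ((inv_smul_eq Φ w x).1 h1)

lemma conj_base (i : ι) (h : H) :
    tt Φ i * PW.inr (Φ (base φ h)) * (tt Φ i)⁻¹ = PW.inr (Φ (base φ h)) := by
  apply PW.ext
  · funext x
    rw [conj_left, PW.inr_left]
    have h1 : ((Φ (base φ h) : W) : W ⧸ LL Φ) = ((1 : W) : W ⧸ LL Φ) := by
      rw [QuotientGroup.eq, mul_one]
      exact inv_mem ⟨h, rfl⟩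
    by_cases hx : x = ((1 : W) : W ⧸ LL Φ)
    · have h2 : (Φ (base φ h))⁻¹ • x = x := by
        rw [(inv_smul_eq Φ _ x).2 (by rw [hx, h1]), hx]
      rw [h2, mul_inv_cancel]
    · rw [dl_ne Φ hx, dl_inv_ne Φ (by rw [h1]; exact hx), inv_one, mul_one]
  · rw [conj_right]
    rfl

/-- the next homomorphism -/
noncomputable def nxt : PushoutI φ →* PW (AA ι) (W ⧸ LL Φ) W :=
  lift (fun i => (MulAut.conj (tt Φ i)).toMonoidHom.comp (PW.inr.comp (Φ.comp (of i))))
    (PW.inr.comp (Φ.comp (base φ))) (by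
      intro i
      ext1 h
      show tt Φ i * PW.inr (Φ (of i (φ i h))) * (tt Φ i)⁻¹ = PW.inr (Φ (base φ h))
      rw [of_apply_eq_base, conj_base])

lemma nxt_of (i : ι) (g : G i) :
    nxt Φ (of i g) = tt Φ i * PW.inr (Φ (of i g)) * (tt Φ i)⁻¹ := by
  unfold nxt
  rw [lift_of]
  rfl

lemma nxt_base (h : H) : nxt Φ (base φ h) = PW.inr (Φ (base φ h)) := by
  unfold nxt
  rw [lift_base]
  rfl

lemma nxt_right (x : PushoutI φ) : (nxt Φ x).right = Φ x := by
  have h1 : (PW.rightHom.comp (nxt Φ)) = Φ := by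
    apply PushoutI.hom_ext
    · intro i
      ext1 g
      show (nxt Φ (of i g)).right = Φ (of i g)
      rw [nxt_of, conj_right]
    · ext1 h
      show (nxt Φ (base φ h)).right = Φ (base φ h)
      rw [nxt_base]
      rfl
  exact congrArg (fun f : PushoutI φ →* W => f x) h1

lemma nxt_mem (x : PushoutI φ) : nxt Φ x ∈ PW.fin (AA ι) (W ⧸ LL Φ) W := by
  induction x using PushoutI.induction_on with
  | of i g =>
    rw [nxt_of, PW.mem_fin]
    apply (Set.toFinite ({((1 : W) : W ⧸ LL Φ), ((Φ (of i g) : W) : W ⧸ LL Φ)} : Set _)).subset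
    intro x hx
    by_contra hcon
    rw [Set.mem_insert_iff, Set.mem_singleton_iff, not_or] at hcon
    apply hx
    rw [conj_left, dl_ne Φ hcon.1, dl_inv_ne Φ hcon.2, inv_one, mul_one]
  | base h =>
    rw [nxt_base, PW.mem_fin]
    convert Set.finite_empty
    ext x
    simp [PW.inr_left]
  | mul x y hx hy =>
    rw [map_mul]
    exact mul_mem hx hy

lemma nxt_left_zero (l : List (Σ i, G i)) (x : W ⧸ LL Φ)
    (h : ∀ q, q <+: l → ((Φ (wprod φ q) : W) : W ⧸ LL Φ) ≠ x) :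
    (nxt Φ (wprod φ l)).left x = 1 := by
  induction l generalizing x with
  | nil => rw [wprod_nil, map_one, PW.one_left]
  | cons s l ih =>
    rw [wprod_cons, map_mul, PW.mul_left, nxt_right, nxt_of, conj_left]
    have h0 := h [] (List.nil_prefix)
    have h1 := h [s] (by simp)
    rw [wprod_nil, map_one] at h0
    rw [wprod_cons, wprod_nil, mul_one] at h1
    have e1 : dl Φ s.1 x = 1 := if_neg (Ne.symm h0)
    have e2 : dl Φ s.1 ((Φ (of s.1 s.2))⁻¹ • x) = 1 := dl_inv_ne Φ (Ne.symm h1)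
    rw [e1, e2, inv_one, mul_one, one_mul]
    apply ih
    intro q hq h2
    apply h (s :: q) (by
      obtain ⟨t, ht⟩ := hq
      exact ⟨t, by rw [List.cons_append, ht]⟩)
    rw [wprod_cons, map_mul]
    have h3 : ((Φ (of s.1 s.2) * Φ (wprod φ q) : W) : W ⧸ LL Φ) =
        Φ (of s.1 s.2) • ((Φ (wprod φ q) : W) : W ⧸ LL Φ) := rfl
    rw [h3, h2, smul_inv_smul]

/-- **the step** -/
theorem nxt_detect {m : ℕ} (hm : 1 ≤ m) (hD : Detect Φ m) : Detect (nxt Φ) (m + 1) := by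
  intro l hl hne hlen
  match l, hl, hne, hlen with
  | [s], hl, _, _ =>
    rintro ⟨h, hh⟩
    rw [wprod_cons, wprod_nil, mul_one] at hh
    have h1 := congrArg PW.right hh
    rw [nxt_right] at h1
    have h2 : (nxt Φ (base φ h)).right = Φ (base φ h) := nxt_right Φ _
    have h3 := hD [s] hl (List.cons_ne_nil _ _) (by simpa using hm)
    apply h3
    refine ⟨h, ?_⟩
    rw [wprod_cons, wprod_nil, mul_one, ← h1]
    exact h2.symm
  | s :: s' :: l, hl, _, hlen =>
    rintro ⟨h, hh⟩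
    have hs : ((Φ (of s.1 s.2) : W) : W ⧸ LL Φ) ≠ ((1 : W) : W ⧸ LL Φ) := by
      intro h1
      have h3 := hD [s] (hl.of_pre ⟨s' :: l, rfl⟩) (List.cons_ne_nil _ _) (by simpa using hm)
      apply h3
      rw [wprod_cons, wprod_nil, mul_one]
      have h4 := QuotientGroup.eq.1 h1.symm
      rwa [inv_one, one_mul] at h4
    have hs' : ((Φ (of s'.1 s'.2) : W) : W ⧸ LL Φ) ≠ ((1 : W) : W ⧸ LL Φ) := by
      intro h1
      have h3 := hD [s'] (hl.tail.of_pre ⟨l, rfl⟩) (List.cons_ne_nil _ _) (by simpa using hm)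
      apply h3
      rw [wprod_cons, wprod_nil, mul_one]
      have h4 := QuotientGroup.eq.1 h1.symm
      rwa [inv_one, one_mul] at h4
    have h1 := congrArg (fun a : PW (AA ι) (W ⧸ LL Φ) W =>
      a.left ((Φ (of s.1 s.2) : W) : W ⧸ LL Φ)) hh
    have e0 : ((nxt Φ).comp (base φ)) h = PW.inr (Φ (base φ h)) := nxt_base Φ h
    simp only [e0, PW.inr_left] at h1
    rw [wprod_cons, map_mul, PW.mul_left, nxt_right, nxt_of, conj_left] at h1
    have e1 : dl Φ s.1 ((Φ (of s.1 s.2) : W) : W ⧸ LL Φ) = 1 := if_neg hs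
    have e2 : (Φ (of s.1 s.2))⁻¹ • ((Φ (of s.1 s.2) : W) : W ⧸ LL Φ) = ((1 : W) : W ⧸ LL Φ) :=
      (inv_smul_eq Φ _ _).2 rfl
    have e3 : dl Φ s.1 ((1 : W) : W ⧸ LL Φ) = Multiplicative.ofAdd (Finsupp.single s.1 1) :=
      if_pos rfl
    rw [e1, e2, e3, one_mul] at h1
    rw [wprod_cons, map_mul, PW.mul_left, nxt_right, nxt_of, conj_left] at h1
    have e4 : dl Φ s'.1 ((1 : W) : W ⧸ LL Φ) = Multiplicative.ofAdd (Finsupp.single s'.1 1) :=
      if_pos rfl
    have e5 : dl Φ s'.1 ((Φ (of s'.1 s'.2))⁻¹ • ((1 : W) : W ⧸ LL Φ)) = 1 :=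
      dl_inv_ne Φ (Ne.symm hs')
    have e6 : (nxt Φ (wprod φ l)).left ((Φ (of s'.1 s'.2))⁻¹ • ((1 : W) : W ⧸ LL Φ)) = 1 := by
      apply nxt_left_zero
      intro q hq h2
      have h3 := hD (s' :: q) (hl.tail.of_pre (by
        obtain ⟨t, ht⟩ := hq
        exact ⟨t, by rw [List.cons_append, ht]⟩)) (List.cons_ne_nil _ _) (by
          have := hq.length_le
          simp only [List.length_cons] at hlen ⊢
          omega)
      apply h3
      rw [wprod_cons, map_mul]
      have h4 : (Φ (of s'.1 s'.2))⁻¹ • ((1 : W) : W ⧸ LL Φ) =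
          (((Φ (of s'.1 s'.2))⁻¹ : W) : W ⧸ LL Φ) := by
        show (((Φ (of s'.1 s'.2))⁻¹ * 1 : W) : W ⧸ LL Φ) = _
        rw [mul_one]
      rw [h4] at h2
      have h5 := QuotientGroup.eq.1 h2.symm
      rwa [inv_inv] at h5
    rw [e4, e5, e6, inv_one, mul_one, mul_one] at h1
    have hne : s.1 ≠ s'.1 := by
      have := hl.2
      rw [List.isChain_cons_cons] at this
      exact this.1
    have h2 : Multiplicative.ofAdd (Finsupp.single s'.1 (1 : ℤ)) =
        Multiplicative.ofAdd (Finsupp.single s.1 (1 : ℤ)) := by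
      rw [eq_comm, ← inv_mul_eq_one, h1]
    have h3 : Finsupp.single s'.1 (1 : ℤ) = Finsupp.single s.1 (1 : ℤ) := h2
    have h4 := (Finsupp.single_left_inj (one_ne_zero)).1 h3
    exact hne h4.symm

/-- the next homomorphism, to the restricted product -/
noncomputable def nxf : PushoutI φ →* PW.fin (AA ι) (W ⧸ LL Φ) W :=
  (nxt Φ).codRestrict _ (nxt_mem Φ)

lemma nxf_detect {m : ℕ} (hD : Detect (nxt Φ) m) : Detect (nxf Φ) m := by
  intro l hl hne hlen
  rintro ⟨h, hh⟩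
  exact hD l hl hne hlen ⟨h, congrArg Subtype.val hh⟩

variable {T : Tgt}

lemma nxf_pp (hT : T ℤ) (hW : PP T W) (hiso : Isolated (LL Φ)) :
    PP T (PW.fin (AA ι) (W ⧸ LL Φ) W) :=
  PP.wreath (PP.freeAb hT ι) hW (fun b x l hl hx => hiso.action b x l hl hx)
    (PW.fin (AA ι) (W ⧸ LL Φ) W).subtype Subtype.val_injective (fun g => g.2)

lemma nxf_isolated (hT : T ℤ) (hW : PP T W) (hiso : Isolated (LL Φ)) :
    Isolated (LL (nxf Φ)) := by
  intro w l hl hw
  obtain ⟨h, hh⟩ := hw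
  have h1 : nxt Φ (base φ h) = w.1 ^ l := congrArg Subtype.val hh
  have h2 : (w.1.right) ^ l ∈ LL Φ := by
    rw [← PW.pow_right, ← h1, nxt_right]
    exact ⟨h, rfl⟩
  obtain ⟨h0, hh0⟩ := hiso _ l hl h2
  have hh0' : Φ (base φ h0) = w.1.right := hh0
  refine ⟨h0, ?_⟩
  apply Subtype.ext
  show nxt Φ (base φ h0) = w.1
  apply PW.root_unique (PP.freeAb (T := T) hT ι).roots hW.roots
    (fun b x l hl hx => hiso.action b x l hl hx) hl (nxt_mem Φ _) w.2
  rw [← h1, nxt_base, nxt_base, ← map_pow, hh0', ← PW.pow_right, ← h1, nxt_base]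
  rfl

end step

section main

variable {ι : Type} {G : ι → Type} [∀ i, Group (G i)] {H : Type} [Group H] {φ : ∀ i, H →* G i}
  {T : Tgt}

/-- the normal form -/
lemma exists_normal (hφ : ∀ i, Function.Injective (φ i)) (x : PushoutI φ) :
    ∃ (h : H) (l : List (Σ i, G i)), Red φ l ∧ x = base φ h * wprod φ l := by
  obtain ⟨d⟩ := NormalWord.transversal_nonempty φ hφ
  set w : NormalWord d := NormalWord.equiv x with hw
  have hx : w.prod = x := by
    rw [hw]
    exact NormalWord.equiv.symm_apply_apply x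
  refine ⟨w.head, w.toList, ⟨?_, w.chain_ne⟩, ?_⟩
  · intro s hs hr
    have h1 : s.2 ∈ d.set s.1 := w.normalized s.1 s.2 (by simpa using hs)
    have h2 : s.2 ≠ 1 := w.ne_one s hs
    apply h2
    have h3 := (Subgroup.IsComplement.equiv_snd_eq_self_iff_mem (d.compl s.1)
      (one_mem (φ s.1).range)).2 h1
    have h4 := (Subgroup.IsComplement.coe_equiv_snd_eq_one_iff_mem (d.compl s.1)
      (d.one_mem s.1)).2 hr
    rw [← h3, h4]
  · rw [← hx]
    unfold NormalWord.prod wprod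
    congr 1
    unfold CoprodI.Word.prod
    rw [map_list_prod, List.map_map]
    congr 1

/-- **closure under amalgamated products over isolated subgroups** -/
theorem PP.amalgam [Nonempty ι] (hT : T ℤ) (hφ : ∀ i, Function.Injective (φ i)) {Q : Type}
    [Group Q] (hQ : PP T Q) (ψ : PushoutI φ →* Q)
    (hψ : ∀ i, Function.Injective (ψ.comp (of (φ := φ) i)))
    (hiso : Isolated (ψ.comp (base φ)).range) : PP T (PushoutI φ) := by
  have claim : ∀ m : ℕ, ∃ (W : Type) (_ : Group W) (Φ : PushoutI φ →* W), PP T W ∧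
      Isolated (LL Φ) ∧ Detect Φ (m + 1) := by
    intro m
    induction m with
    | zero =>
      refine ⟨Q, inferInstance, ψ, hQ, hiso, ?_⟩
      intro l hl hne hlen
      match l, hl, hne, hlen with
      | [s], hl, _, _ =>
        rintro ⟨h, hh⟩
        rw [wprod_cons, wprod_nil, mul_one] at hh
        apply hl.1 s (by simp)
        refine ⟨h, ?_⟩
        apply hψ s.1
        show ψ (of s.1 (φ s.1 h)) = ψ (of s.1 s.2)
        rw [of_apply_eq_base]
        exact hh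
    | succ m ih =>
      obtain ⟨W, _, Φ, h1, h2, h3⟩ := ih
      exact ⟨PW.fin (AA ι) (W ⧸ LL Φ) W, inferInstance, nxf Φ, nxf_pp Φ hT h1 h2,
        nxf_isolated Φ hT h1 h2, nxf_detect Φ (nxt_detect Φ (by omega) h3)⟩
  apply PP.residual
  intro x hx
  obtain ⟨h, l, hl, hxl⟩ := exists_normal hφ x
  by_cases hl0 : l = []
  · subst hl0
    rw [wprod_nil, mul_one] at hxl
    refine ⟨Q, inferInstance, ψ, hQ, ?_⟩
    intro h1
    apply hx
    obtain ⟨i⟩ := (inferInstance : Nonempty ι)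
    have h2 : φ i h = 1 := by
      apply hψ i
      show ψ (of i (φ i h)) = ψ (of i 1)
      rw [of_apply_eq_base, ← hxl, h1, map_one, map_one]
    rw [hxl, ← of_apply_eq_base φ i, h2, map_one]
  · obtain ⟨W, _, Φ, h1, h2, h3⟩ := claim l.length
    refine ⟨W, inferInstance, Φ, h1, ?_⟩
    intro h4
    apply h3 l hl hl0 (by omega)
    rw [hxl, map_mul] at h4
    have h5 : Φ (wprod φ l) = (Φ (base φ h))⁻¹ := by
      rw [eq_comm, inv_eq_iff_mul_eq_one]
      exact h4
    rw [h5]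
    exact inv_mem ⟨h, rfl⟩

end main

end Pool.Agent.U731.WH
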