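import Pool.Agent.Y72.Un.Van
import Pool.Agent.Y72.Tr.Fin

/-!
# The Dennis trace with torsion-free coefficients
-/

set_option autoImplicit false
set_option linter.unusedSectionVars false

namespace Pool.Agent.U731.WH

open Finset H219.Wh Pool.Agent.Y72.Log Pool.Agent.Y72.Dt Pool.Agent.Y72.Tr
open Pool.Agent.H23R2 (InvPair IsCoc DsumZ cf supp invPair_units rootF rootF_pos rootF_neg
  rootF_coc rootF_zero rootF_succ_pow)
open scoped Classical

/-- nonzero elements are divisible by finitely many primes only -/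
def FD (B : Type*) [AddCommGroup B] : Prop :=
  ∀ x : B, x ≠ 0 → {l : ℕ | l.Prime ∧ ∃ y : B, l • y = x}.Finite

/-- the conditions on centralisers and roots -/
structure Cr (Γ : Type*) [Group Γ] : Prop where
  tf : ∀ g : Γ, ∀ m : ℕ, 0 < m → g ^ m = 1 → g = 1
  ur : UR Γ
  fd : ∀ c : Γ, c ≠ 1 → {l : ℕ | l.Prime ∧ ∃ x : Γ, x ^ l = c}.Finite

section trick

variable {I S : Type*} [Fintype I] [Fintype S] {Γ : Type*} [Group Γ] {gr : S → Γ}
  {A B : I → I → S → ℤ}

/-- **finitely divisible coefficients** -/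
theorem trick (h : IP gr A B) (hn : Cr Γ)
    (hA : ∀ l : ℕ, Odd l → ∀ i j a, A i j a ^ l = A i j a)
    (hB : ∀ l : ℕ, Odd l → ∀ i j a, B i j a ^ l = B i j a) {M : Type*} [AddCommGroup M]
    (hM : FD M)
    {c : Γ} (hc : c ≠ 1) {F : Γ → Γ → M} (hF : IsCoc F)
    (hs : ∀ w x, ¬ IsConj c w → F w x = 0) : Dsum gr A B F = 0 := by
  by_contra hne
  -- the exceptional primes
  let bad : Set ℕ := {l : ℕ | l.Prime ∧ ∃ y : M, l • y = Dsum gr A B F} ∪
    ((⋃ z ∈ (Finset.univ : Finset (S × S)), {l : ℕ | gr z.1 * gr z.2 ≠ 1 ∧ l.Prime ∧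
      ∃ x : Γ, x ^ l = gr z.1 * gr z.2}) ∪ {2})
  have hbad : bad.Finite := by
    apply (hM _ hne).union
    apply Set.Finite.union _ (Set.finite_singleton 2)
    apply Set.Finite.biUnion (Finset.finite_toSet _)
    intro z _
    by_cases hz : gr z.1 * gr z.2 = 1
    · apply Set.finite_empty.subset
      rintro l ⟨h1, _⟩
      exact h1 hz
    · apply (hn.fd _ hz).subset
      rintro l ⟨_, h1⟩
      exact h1
  obtain ⟨l, ⟨hl, hroot⟩, hlb⟩ := (hn.ur.sdiff hbad).nonempty
  simp only [bad, Set.mem_union, Set.mem_iUnion, not_or, Set.mem_singleton_iff] at hlb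
  obtain ⟨hl1, hl2, hl3⟩ := hlb
  haveI : Fact l.Prime := ⟨hl⟩
  have hodd : Odd l := hl.odd_of_ne_two hl3
  apply hl1
  refine ⟨hl, ?_⟩
  let φ : M →+ M := nsmulAddMonoidHom l
  let q : M →+ M ⧸ φ.range := QuotientAddGroup.mk' φ.range
  have hMq : ∀ x : M ⧸ φ.range, l • x = 0 := by
    intro x
    obtain ⟨x, rfl⟩ := QuotientAddGroup.mk'_surjective φ.range x
    rw [← map_nsmul]
    exact (QuotientAddGroup.eq_zero_iff _).2 ⟨x, rfl⟩
  suffices h0 : q (Dsum gr A B F) = 0 by
    obtain ⟨y, hy⟩ := (QuotientAddGroup.eq_zero_iff _).1 h0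
    exact ⟨y, hy⟩
  set F' : Γ → Γ → M ⧸ φ.range := fun w x => q (F w x) with hF'
  have hF'c : IsCoc F' := by
    intro w x y
    show q _ = q _ + q _
    rw [← map_add, hF]
  have hR : IsCoc (rootF l F' 1) := rootF_coc hroot hF'c 1
  have hdiag : ∀ w, rootF l F' 1 w w = 0 := by
    intro w
    by_cases hw : ∃ z : Γ, z ^ (l ^ 1) = w
    · obtain ⟨z, hz⟩ := hw
      rw [rootF_pos hroot F' 1 z w _ hz, ← hz]
      have h1 := coc_pow_pow hF'c z 1 (l ^ 1)
      rw [pow_one z] at h1
      rw [h1, pow_one, hMq]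
    · exact rootF_neg F' 1 _ _ hw
  have h1 := frobenius_relation (p := l) (i := 0) (M := M ⧸ φ.range) h (hA l hodd) (hB l hodd)
    (by
      intro x
      rw [zero_add, pow_one]
      exact hMq x) hR hdiag
  have h2 : (fun w x => rootF l F' 1 (w ^ l) x) = F' := by
    funext w x
    have h3 := rootF_succ_pow (p := l) hroot F' 0 w x
    rw [zero_add] at h3
    rw [h3, rootF_zero F' hroot]
  have h3 : Dsum gr A B (rootF l F' 1) = 0 := by
    unfold Dsum
    apply Finset.sum_eq_zero
    intro y _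
    have h4 : rootF l F' 1 (gr y.2.2.1 * gr y.2.2.2) (gr y.2.2.1) = 0 := by
      by_cases hw : ∃ z : Γ, z ^ (l ^ 1) = gr y.2.2.1 * gr y.2.2.2
      · obtain ⟨z, hz⟩ := hw
        rw [rootF_pos hroot F' 1 z _ _ hz]
        by_cases hcz : IsConj c z
        · exfalso
          apply hl2
          refine ⟨(y.2.2.1, y.2.2.2), Finset.mem_univ _, ?_, hl, z, by rw [← hz, pow_one]⟩
          intro h5
          rw [h5, pow_one] at hz
          have h6 := hn.tf z l hl.pos hz
          rw [h6] at hcz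
          exact hc (isConj_one_left.1 hcz)
        · show q (F z _) = 0
          rw [hs z _ hcz, map_zero]
      · exact rootF_neg F' 1 _ _ hw
    rw [h4, smul_zero]
  rw [h3, h2] at h1
  rw [map_Dsum]
  exact h1.symm

end trick

section four

variable {I S : Type*} [Fintype I] [Fintype S] {Γ : Type*} [Group Γ] {gr : S → Γ}
  {A B : I → I → S → ℤ} {M : Type*} [AddCommGroup M] [Module ℚ M]

/-- **the pairing with cyclic cocycles vanishes if there is a rational additive function** -/
theorem four_rat (h : IP gr A B) {F : Γ → Γ → ℚ} (hF : IsCoc F) {G : Γ → Γ → M}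
    (hG : IsCoc G) (hGd : ∀ w, G w w = 0) (hFd : ∀ w, F w w = 1 ∨ ∀ x, G w x = 0) :
    Dsum gr A B G = 0 := by
  set Q : M := S2 gr A B (fun x y => F (x * y) x • G (x * y) x) with hQ
  set D : M := Dsum gr A B G with hD
  have hDe : D = S2 gr A B (fun x y => G (x * y) x) := Dsum_eq G
  have hlam : ∀ w x, F w w • G w x = G w x := by
    intro w x
    rcases hFd w with h1 | h1
    · rw [h1, one_smul]
    · rw [h1, smul_zero]
  have hGxy : ∀ x y, G (y * x) y = - G (x * y) x := by
    intro x y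
    have h1 := hG (x * y) x y
    have h2 : x⁻¹ * (x * y) * x = y * x := by group
    rw [h2, hGd] at h1
    exact eq_neg_of_add_eq_zero_right h1.symm
  have hFxy : ∀ x y, F (y * x) y = F (x * y) (x * y) - F (x * y) x := by
    intro x y
    have h1 := hF (x * y) x y
    have h2 : x⁻¹ * (x * y) * x = y * x := by group
    rw [h2] at h1
    linarith
  -- the terms
  have t00 : S4 gr A B (fun x y z w => F (x * y * z * w) x • G (x * y * z * w) x) = Q := by
    have h1 := c34 h (fun x y g => F (x * y * g) x • G (x * y * g) x)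
    simp only [← mul_assoc, mul_one] at h1
    exact h1
  have t01 : S4 gr A B (fun x y z w => F (x * y * z * w) x • G (y * z * w * x) y) = -Q := by
    have h1 := c34 h (fun x y g => F (x * y * g) x • G (y * g * x) y)
    simp only [← mul_assoc, mul_one] at h1
    rw [h1, hQ, ← S2_neg]
    congr 1
    funext x y
    rw [hGxy, smul_neg]
  have t03 : S4 gr A B (fun x y z w => F (x * y * z * w) x • G (w * x * y * z) w) = -Q := by
    have h1 := c23 h (fun x g w => F (x * g * w) x • G (w * x * g) w)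
    simp only [← mul_assoc, mul_one] at h1
    rw [h1, hQ, ← S2_neg]
    congr 1
    funext x y
    rw [hGxy, smul_neg]
  have t0 : S4 gr A B (fun x y z w => F (x * y * z * w) x • G (x * y * z * w) x) +
      S4 gr A B (fun x y z w => F (x * y * z * w) x • G (y * z * w * x) y) +
      S4 gr A B (fun x y z w => F (x * y * z * w) x • G (z * w * x * y) z) +
      S4 gr A B (fun x y z w => F (x * y * z * w) x • G (w * x * y * z) w) = 0 := by
    rw [← S4_add, ← S4_add, ← S4_add, ← S4_zero (gr := gr) (A := A) (B := B) (M := M)]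
    congr 1
    funext x y z w
    rw [← smul_add, ← smul_add, ← smul_add, ← coc_four hG, hGd, smul_zero]
  have t02 : S4 gr A B (fun x y z w => F (x * y * z * w) x • G (z * w * x * y) z) = Q := by
    rw [t00, t01, t03] at t0
    have h1 : S4 gr A B (fun x y z w => F (x * y * z * w) x • G (z * w * x * y) z) - Q = 0 := by
      rw [← t0]
      abel
    exact sub_eq_zero.1 h1
  have t20 : S4 gr A B (fun x y z w => F (z * w * x * y) z • G (x * y * z * w) x) = Q := by
    rw [rot]
    exact t02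
  have hlD : S2 gr A B (fun x y => F (y * x) y • G (x * y) x) = D - Q := by
    rw [hDe, sub_eq_add_neg, hQ, ← S2_neg, ← S2_add]
    congr 1
    funext x y
    rw [hFxy, sub_smul, hlam, sub_eq_add_neg]
  have t10 : S4 gr A B (fun x y z w => F (y * z * w * x) y • G (x * y * z * w) x) =
      D - Q := by
    have h1 := c34 h (fun x y g => F (y * g * x) y • G (x * y * g) x)
    simp only [← mul_assoc, mul_one] at h1
    rw [h1, hlD]
  have t30 : S4 gr A B (fun x y z w => F (w * x * y * z) w • G (x * y * z * w) x) =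
      D - Q := by
    have h1 := c23 h (fun x g w => F (w * x * g) w • G (x * g * w) x)
    simp only [← mul_assoc, mul_one] at h1
    rw [h1, hlD]
  have t0' : S4 gr A B (fun x y z w => F (x * y * z * w) x • G (x * y * z * w) x) +
      S4 gr A B (fun x y z w => F (y * z * w * x) y • G (x * y * z * w) x) +
      S4 gr A B (fun x y z w => F (z * w * x * y) z • G (x * y * z * w) x) +
      S4 gr A B (fun x y z w => F (w * x * y * z) w • G (x * y * z * w) x) = D := by
    rw [← S4_add, ← S4_add, ← S4_add]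
    have h1 := c34 h (fun x y g => G (x * y * g) x)
    simp only [← mul_assoc, mul_one] at h1
    rw [hDe, ← h1]
    congr 1
    funext x y z w
    rw [← add_smul, ← add_smul, ← add_smul, ← coc_four hF, hlam]
  rw [t00, t10, t20, t30] at t0'
  have h1 : Q + (D - Q) + Q + (D - Q) = D + D := by abel
  rw [h1] at t0'
  exact left_eq_add.1 t0'.symm

end four

section fdiv

variable {B : Type*} [AddCommGroup B]

lemma FD.torsionFree (hB : FD B) {b : B} {n : ℕ} (hn : n ≠ 0) (hb : n • b = 0) : b = 0 := by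
  by_contra hne
  obtain ⟨l, hl, hlb⟩ := (Nat.infinite_setOfPred_prime.sdiff
    ((hB b hne).union (Set.finite_Iic n))).nonempty
  rw [Set.mem_union, not_or] at hlb
  obtain ⟨h1, h2⟩ := hlb
  have hl' : l.Prime := hl
  have hln : n < l := by
    by_contra hc
    exact h2 (not_lt.1 hc)
  apply h1
  refine ⟨hl', ?_⟩
  have hco : IsCoprime (l : ℤ) (n : ℤ) := by
    rw [Nat.isCoprime_iff_coprime]
    exact (Nat.Prime.coprime_iff_not_dvd hl').2
      (fun h => absurd (Nat.le_of_dvd (Nat.pos_of_ne_zero hn) h) (not_le.2 hln))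
  obtain ⟨u, v, huv⟩ := hco
  refine ⟨u • b, ?_⟩
  have h3 : b = (u * l + v * n : ℤ) • b := by rw [huv, one_smul]
  have h4 : ((n : ℕ) : ℤ) • b = 0 := by rw [natCast_zsmul, hb]
  conv_rhs => rw [h3]
  rw [add_smul, mul_smul v, h4, smul_zero, add_zero, mul_comm, mul_smul, natCast_zsmul]

lemma FD.isAddTorsionFree (hB : FD B) : IsAddTorsionFree B where
  nsmul_right_injective := by
    intro n hn x y hxy
    have h1 : n • (x - y) = 0 := by
      rw [smul_sub, sub_eq_zero]
      exact hxy
    exact sub_eq_zero.1 (hB.torsionFree hn h1)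

/-- a rational functional -/
lemma FD.exists_functional (hB : FD B) {b : B} (hb : b ≠ 0) : ∃ ψ : B →+ ℚ, ψ b = 1 := by
  haveI := hB.isAddTorsionFree
  let j : B →+ DivisibleHull B := DivisibleHull.coeAddMonoidHom B
  have hj : j b ≠ 0 := by
    intro h0
    apply hb
    apply DivisibleHull.coe_injective
    show j b = j 0
    rw [h0, map_zero]
  have h1 : ¬ ∀ f : Module.Dual ℚ (DivisibleHull B), f (j b) = 0 := by
    intro h2
    exact hj ((Module.forall_dual_apply_eq_zero_iff ℚ _).1 h2)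
  push Not at h1
  obtain ⟨f, hf⟩ := h1
  refine ⟨((f (j b))⁻¹ • f).toAddMonoidHom.comp j, ?_⟩
  show (f (j b))⁻¹ • f (j b) = 1
  rw [smul_eq_mul, inv_mul_cancel₀ hf]

end fdiv

section cls

variable {Γ : Type*} [Group Γ] {n : ℕ}

/-- finitely divisible coefficients -/
theorem PD_fd (A : (Matrix (Fin n) (Fin n) (MonoidAlgebra ℤ Γ))ˣ) (hn : Cr Γ)
    {M : Type*} [AddCommGroup M] (hM : FD M) {c : Γ} (hc : c ≠ 1) {F : Γ → Γ → M} (hF : IsCoc F)
    (hs : ∀ w x, ¬ IsConj c w → F w x = 0) : PD A F = 0 := by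
  rw [PD_eq]
  exact trick (ip_A A) hn (fun l hl => lett_pow hl _ _ _) (fun l hl => lett_pow hl _ _ _)
    hM hc hF hs

/-- rational coefficients, one class -/
theorem PD_rat (A : (Matrix (Fin n) (Fin n) (MonoidAlgebra ℤ Γ))ˣ) (hn : Cr Γ)
    {c : Γ} (hc : c ≠ 1) {B : Type*} [AddCommGroup B] (hB : FD B) {f : Γ → B} (hf : AddOn c f)
    (hfc : f c ≠ 0) {M : Type*} [AddCommGroup M] [Module ℚ M] {G : Γ → Γ → M} (hG : IsCoc G)
    (hs : ∀ w x, ¬ IsConj c w → G w x = 0) : PD A G = 0 := by
  obtain ⟨ψ, hψ⟩ := hB.exists_functional hfc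
  set F0 : Γ → Γ → ℚ := fun w x => ψ (cocF c f w x) with hF0
  have hF0c : IsCoc F0 := by
    intro w x y
    show ψ _ = ψ _ + ψ _
    rw [← map_add, cocF_coc hf]
  have hF0d : ∀ w, IsConj c w → F0 w w = 1 := by
    intro w hw
    show ψ _ = 1
    rw [cocF_diag f hw, hψ]
  have hF0n : ∀ w x, ¬ IsConj c w → F0 w x = 0 := by
    intro w x hw
    show ψ _ = 0
    rw [cocF_neg f hw, map_zero]
  have e0 : PD A F0 = 0 := by
    have h1 := map_PD A ψ (cocF c f)
    rw [PD_fd A hn hB hc (cocF_coc hf) (fun w x hw => cocF_neg _ hw x), map_zero] at h1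
    exact h1.symm
  set G' : Γ → Γ → M := fun w x => G w x - F0 w x • G c c with hG'
  have hcoc : IsCoc G' := by
    intro w x y
    show G w (x * y) - F0 w (x * y) • G c c = _
    rw [hG w x y, hF0c w x y]
    simp only [hG', add_smul]
    abel
  have hdiag : ∀ w, G' w w = 0 := by
    intro w
    show G w w - F0 w w • G c c = 0
    by_cases hw : IsConj c w
    · rw [coc_conj hG hw, hF0d w hw, one_smul, sub_self]
    · rw [hs w w hw, hF0n w w hw, zero_smul, sub_zero]
  have h1 := four_rat (ip_A A) hF0c hcoc hdiag (by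
    intro w
    by_cases hw : IsConj c w
    · exact Or.inl (hF0d w hw)
    · right
      intro x
      show G w x - F0 w x • G c c = 0
      rw [hs w x hw, hF0n w x hw, zero_smul, sub_zero])
  rw [← PD_eq] at h1
  have e2 : PD A (fun w x => F0 w x • G c c) = (PD A F0) • G c c :=
    (map_PD A ((LinearMap.toSpanSingleton ℚ M (G c c)).toAddMonoidHom) F0).symm
  have e3 := PD_add A (fun w x => G' w x) (fun w x => F0 w x • G c c)
  have e4 : (fun w x => G' w x + F0 w x • G c c) = G := by
    funext w x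
    exact sub_add_cancel _ _
  rw [e4, e2, e0, zero_smul, add_zero] at e3
  rw [e3]
  exact h1

end cls

section main

universe u v w

/-- the condition -/
def Good (Γ : Type u) [Group Γ] : Prop :=
  Cr Γ ∧ ∀ c : Γ, c ≠ 1 → ∃ (B : Type w) (_ : AddCommGroup B), FD B ∧
    ∃ f : Γ → B, AddOn c f ∧ f c ≠ 0

/-- **exact values of cocycles with coefficients in vector spaces** -/
theorem PD_exact {Γ : Type u} [Group Γ] {n : ℕ}
    (A : (Matrix (Fin n) (Fin n) (MonoidAlgebra ℤ Γ))ˣ) (hn : Good.{u, w} Γ) {M : Type*}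
    [AddCommGroup M] [Module ℚ M] {F : Γ → Γ → M} (hF : IsCoc F) : PD A F = F 1 (gamA A) := by
  rw [PD_TA A F, PD_one A hF]
  have h2 : ∑ C ∈ TA A with C ≠ ConjClasses.mk 1, PD A (clF F C) = 0 := by
    apply Finset.sum_eq_zero
    intro C hC
    rw [Finset.mem_filter] at hC
    have h3 : rep C ≠ 1 := by
      intro h3
      apply hC.2
      rw [← mk_out C, h3]
    obtain ⟨B, _, hB, f, hf, hfc⟩ := hn.2 (rep C) h3
    apply PD_rat A hn.1 h3 hB hf hfc (clF_coc hF C)
    intro w x hw
    exact if_neg (fun hc => hw ((isConj_out_iff C w).2 hc))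
  rw [h2, add_zero]

/-- the same with coefficients in torsion-free groups -/
theorem PD_exact' {Γ : Type u} [Group Γ] {n : ℕ}
    (A : (Matrix (Fin n) (Fin n) (MonoidAlgebra ℤ Γ))ˣ) (hn : Good.{u, w} Γ) {M : Type*}
    [AddCommGroup M] (hM : ∀ (k : ℕ) (x : M), k ≠ 0 → k • x = 0 → x = 0) {F : Γ → Γ → M}
    (hF : IsCoc F) : PD A F = F 1 (gamA A) := by
  have : IsAddTorsionFree M :=
    { nsmul_right_injective := by
        intro n hn x y hxy
        have h1 : n • (x - y) = 0 := by
          rw [smul_sub, sub_eq_zero]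
          exact hxy
        exact sub_eq_zero.1 (hM n _ hn h1) }
  let j : M →+ DivisibleHull M := DivisibleHull.coeAddMonoidHom M
  apply DivisibleHull.coe_injective
  show j (PD A F) = j (F 1 (gamA A))
  rw [map_PD A j F]
  exact PD_exact A hn (F := fun w x => j (F w x)) (by
    intro w x y
    show j _ = j _ + j _
    rw [← map_add, hF])

open Pool.Agent.H23R2 (pairing isCoc_of_hochschild) in
/-- **the Dennis trace with torsion-free coefficients** -/
theorem main_rat {Γ : Type u} [Group Γ] (h : ∀ H : Subgroup Γ, H.FG → Good.{u, w} H) {n : ℕ}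
    (A : (Matrix (Fin n) (Fin n) (MonoidAlgebra ℤ Γ))ˣ) :
    ∃ γ : Γ, ∀ (M : Type v) [AddCommGroup M], (∀ (k : ℕ) (x : M), k ≠ 0 → k • x = 0 → x = 0) →
      ∀ (f : Γ → Γ → M), (∀ x y z : Γ, f (x * y) z - f x (y * z) + f (z * x) y = 0) →
        (∑ i, ∑ j, ((A⁻¹).val i j).coeff.sum fun g b =>
            (A.val j i).coeff.sum fun h a => (b * a) • f g h) = f γ⁻¹ γ := by
  obtain ⟨H, hH, hS⟩ := exists_fg A
  obtain ⟨A', hA'⟩ := exists_sub A H hS
  have : Group.FG H := (Group.fg_iff_subgroup_fg H).2 hH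
  refine ⟨(gamA A' : H), ?_⟩
  intro M _ hM f hf
  have hcoc : IsCoc (fun (w x : H) => f ((x⁻¹ : H) * (w : H) : H) (x : H)) :=
    isCoc_of_hochschild (fun x y : H => f x y) (fun x y z => hf x y z)
  have h2 : pairing f (A⁻¹).val A.val =
      PD A' (fun (w x : H) => f ((x⁻¹ : H) * (w : H) : H) (x : H)) := by
    rw [hA', pairing_mpU]
    exact pairing_PD A' (fun x y : H => f x y)
  have h3 : f ((gamA A' : H) : Γ)⁻¹ ((gamA A' : H) : Γ) =
      (fun (w x : H) => f ((x⁻¹ : H) * (w : H) : H) (x : H)) 1 (gamA A') := by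
    simp
  have h4 : (∑ i, ∑ j, ((A⁻¹).val i j).coeff.sum fun g b =>
      (A.val j i).coeff.sum fun h a => (b * a) • f g h) = pairing f (A⁻¹).val A.val := rfl
  rw [h4, h2, h3]
  exact PD_exact' A' (h H hH) hM hcoc

end main

end Pool.Agent.U731.WH
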