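import Pool.Agent.U731.WH.Am
import Pool.Agent.U731.WH.Rt
import Pool.Agent.Y72.Fp.Main
import Pool.Agent.Y72.Pl.Main

/-!
# The two conditions and the base families
-/

set_option autoImplicit false
set_option linter.unusedSectionVars false

namespace Pool.Agent.U731.WH

open Pool.Agent.Y72 Pool.Agent.Y72.Log Pool.Agent.Y72.Dt Pool.Agent.Y72.Un Pool.Agent.Y72.Tr H219.Wh
open Pool.Agent.H23R2 (IsCoc pairing isCoc_of_hochschild)

universe u v w

section targets

/-- the targets which embed in `ℤ` -/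
def T1 : Tgt := fun B _ => ∃ e : B →+ ℤ, Function.Injective e

/-- the targets with finite divisibility -/
def T2 : Tgt := fun B _ => FD B

lemma T1_int : T1 ℤ := ⟨AddMonoidHom.id ℤ, Function.injective_id⟩

lemma T2_of_T1 {B : Type} [AddCommGroup B] (h : T1 B) : T2 B := by
  obtain ⟨e, he⟩ := h
  intro x hx
  have h1 : e x ≠ 0 := fun h0 => hx (he (by rw [h0, map_zero]))
  apply (int_fin (e x) h1).subset
  rintro l ⟨hl, y, hy⟩
  exact ⟨hl, e y, by rw [← map_nsmul, hy]⟩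

lemma T2_int : T2 ℤ := T2_of_T1 T1_int

lemma PP.mono {Γ : Type} [Group Γ] (h : PP T1 Γ) : PP T2 Γ where
  roots := h.roots
  cen := by
    intro H hH c hc hc1
    obtain ⟨B, _, hB, f, hf, hfc⟩ := h.cen H hH c hc hc1
    exact ⟨B, inferInstance, T2_of_T1 hB, f, hf, hfc⟩

end targets

section cn

variable {Γ : Type} [Group Γ]

lemma ur_all (h : ∀ l : ℕ, l ≠ 0 → ∀ x y : Γ, x ^ l = y ^ l → x = y) : UR Γ := by
  have h1 : {l : ℕ | l.Prime ∧ ∀ x y : Γ, x ^ l = y ^ l → x = y} = {l : ℕ | l.Prime} := by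
    ext l
    constructor
    · exact fun h2 => h2.1
    · exact fun h2 => ⟨h2, fun x y hxy => h l (Nat.Prime.ne_zero h2) x y hxy⟩
  unfold UR
  rw [h1]
  exact Nat.infinite_setOfPred_prime

lemma roots_sub {T : Tgt} (h : PP T Γ) (H : Subgroup Γ) (l : ℕ) (hl : l ≠ 0) (x y : H)
    (hxy : x ^ l = y ^ l) : x = y := by
  apply Subtype.ext
  apply h.roots l hl
  have := congrArg Subtype.val hxy
  simpa using this

/-- the functions on the subgroup -/
lemma addOn_sub {T : Tgt} (h : PP T Γ) {H : Subgroup Γ} (hH : H.FG) (c : H) (hc : c ≠ 1) :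
    ∃ (B : Type) (_ : AddCommGroup B), T B ∧ ∃ f : H → B, AddOn c f ∧ f c ≠ 0 := by
  obtain ⟨B, _, hB, f, hf, hfc⟩ := h.cen H hH c.1 c.2 (fun h0 => hc (Subtype.ext h0))
  refine ⟨B, inferInstance, hB, fun x => f x, ?_, hfc⟩
  intro x y hx hy
  exact hf x.1 x.2 y.1 y.2 (congrArg Subtype.val hx) (congrArg Subtype.val hy)

theorem PP.cn (h : PP T1 Γ) (H : Subgroup Γ) (hH : H.FG) : Cn H := by
  have hca : ∀ c : H, c ≠ 1 → Ca c := by
    intro c hc
    obtain ⟨B, _, ⟨e, he⟩, f, hf, hfc⟩ := addOn_sub h hH c hc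
    refine ⟨fun x => e (f x), ?_, fun h0 => hfc (he (by rw [map_zero]; exact h0))⟩
    intro x y hx hy
    show e (f (x * y)) = e (f x) + e (f y)
    rw [hf x y hx hy, map_add]
  refine ⟨?_, ur_all (roots_sub h H), fun c hc => fd_ca (hca c hc), fun c hc => Or.inl (hca c hc)⟩
  intro g m hm hg
  exact roots_sub h H m hm.ne' g 1 (by rw [hg, one_pow])

theorem PP.good (h : PP T2 Γ) (H : Subgroup Γ) (hH : H.FG) : Good.{0, 0} H := by
  refine ⟨⟨?_, ur_all (roots_sub h H), ?_⟩, fun c hc => addOn_sub h hH c hc⟩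
  · intro g m hm hg
    exact roots_sub h H m hm.ne' g 1 (by rw [hg, one_pow])
  · intro c hc
    obtain ⟨B, _, hB, f, hf, hfc⟩ := addOn_sub h hH c hc
    apply (hB _ hfc).subset
    rintro l ⟨hl, x, hx⟩
    have h1 : x * c = c * x := by rw [← hx, ← pow_succ, ← pow_succ']
    have h2 := hf.pow h1 l
    rw [hx] at h2
    exact ⟨hl, f x, h2.symm⟩

end cn

section gen

variable {Γ : Type u} [Group Γ]

/-- **determinants and Dennis traces** -/
theorem main_cn (hn : ∀ H : Subgroup Γ, H.FG → Cn H) {n : ℕ}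
    (A : (Matrix (Fin n) (Fin n) (MonoidAlgebra ℤ Γ))ˣ) :
    ∃ ε : ℤ, (ε = 1 ∨ ε = -1) ∧ ∃ γ : Γ,
      (∀ (L : Type w) [Field L] (d : ℕ) (σ : Γ →* GL (Fin d) L),
        (Matrix.of fun x y : Fin n × Fin d =>
          (A.val x.1 y.1).coeff.sum fun g a => (a : L) * (σ g).val x.2 y.2).det =
            (ε : L) ^ d * (σ γ).val.det) ∧
      ∃ k : ℕ, 0 < k ∧ ∀ (M : Type v) [AddCommGroup M] (f : Γ → Γ → M),
        (∀ x y z : Γ, f (x * y) z - f x (y * z) + f (z * x) y = 0) →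
        k • ((∑ i, ∑ j, ((A⁻¹).val i j).coeff.sum fun g b =>
            (A.val j i).coeff.sum fun h a => (b * a) • f g h) - f γ⁻¹ γ) = 0 ∧
        ∀ m : ℕ, 0 < m → ∃ y : M,
          (∑ i, ∑ j, ((A⁻¹).val i j).coeff.sum fun g b =>
            (A.val j i).coeff.sum fun h a => (b * a) • f g h) - f γ⁻¹ γ = m • y := by
  obtain ⟨H, hH, hS⟩ := exists_fg A
  obtain ⟨A', hA'⟩ := exists_sub A H hS
  haveI : Group.FG H := (Group.fg_iff_subgroup_fg H).2 hH
  have hn : Cn H := hn H hH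
  obtain ⟨k, hk, h1⟩ := PD_tors.{v} A' hn
  refine ⟨DD (trv H ℤ) A'.val, sign_pm A', (gamA A' : H), ?_, k, hk, ?_⟩
  · intro L _ d σ
    let ρ' : Γ →* Matrix (Fin d) (Fin d) L := (Units.coeHom _).comp σ
    have h1 := all_reps_sign hn A' (ρ'.comp H.subtype)
    have h2 : DD (ρ'.comp H.subtype) A'.val = (Matrix.of fun x y : Fin n × Fin d =>
        (A.val x.1 y.1).coeff.sum fun g a => (a : L) * (σ g).val x.2 y.2).det := by
      unfold DD
      rw [← blkR_mpU, ← hA']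
      congr 1
      ext1 x y
      exact lrG_apply ρ' (A.val x.1 y.1) x.2 y.2
    rw [h2, Int.cast_pow] at h1
    exact h1
  · intro M _ f hf
    have hcoc : IsCoc (fun (w x : H) => f ((x⁻¹ : H) * (w : H) : H) (x : H)) :=
      isCoc_of_hochschild (fun x y : H => f x y) (fun x y z => hf x y z)
    have h2 : pairing f (A⁻¹).val A.val =
        PD A' (fun (w x : H) => f ((x⁻¹ : H) * (w : H) : H) (x : H)) := by
      rw [hA', pairing_mpU]
      exact pairing_PD A' (fun x y : H => f x y)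
    have h3 : f ((gamA A' : H) : Γ)⁻¹ ((gamA A' : H) : Γ) =
        (fun (w x : H) => f ((x⁻¹ : H) * (w : H) : H) (x : H)) 1 (gamA A') := by
      simp
    have h4 : (∑ i, ∑ j, ((A⁻¹).val i j).coeff.sum fun g b =>
        (A.val j i).coeff.sum fun h a => (b * a) • f g h) = pairing f (A⁻¹).val A.val := rfl
    rw [h4, h2, h3]
    exact ⟨h1 M _ hcoc, fun m hm => PD_div A' hn hcoc m hm⟩

end gen

section base

variable {Γ : Type} [Group Γ]

/-- piecewise linear homeomorphisms of the line -/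
theorem PP.pl (ρ : Γ →* (ℝ ≃o ℝ)) (hρ : Function.Injective ρ) (h : ∀ x, Pl.IsPL (ρ x)) :
    PP T1 Γ := by
  have hR : Pl.RPL Γ := fun g hg => ⟨ρ, fun hc => hg (hρ (by rw [hc, map_one])), h⟩
  refine ⟨fun l hl x y hxy => hR.root (Nat.pos_of_ne_zero hl) hxy, ?_⟩
  intro H _ c _ hc1
  obtain ⟨f, hf, hfc⟩ := hR.int hc1
  exact ⟨ℤ, inferInstance, T1_int, f, fun x _ y _ hx hy => hf x y hx hy, hfc⟩

/-- linear groups with unique roots and without unipotent elements -/
theorem PP.linear {K : Type*} [Field K] {N : ℕ} (ρ : Γ →* GL (Fin N) K)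
    (hu : ∀ g : Γ, g ≠ 1 → ¬ IsNilpotent ((ρ g).val - 1))
    (hroots : ∀ l : ℕ, l ≠ 0 → ∀ x y : Γ, x ^ l = y ^ l → x = y) : PP T1 Γ := by
  refine ⟨hroots, ?_⟩
  intro H hH c hc hc1
  have : Group.FG H := (Group.fg_iff_subgroup_fg H).2 hH
  rcases cen_pt (ρ.comp H.subtype) ⟨c, hc⟩ with ⟨n, hn, h1⟩ | ⟨f, hf, hfc⟩
  · exfalso
    have h2 : IsNilpotent ((ρ (c ^ n)).val - 1) := h1
    by_cases h3 : c ^ n = 1
    · exact hc1 (hroots n hn.ne' c 1 (by rw [h3, one_pow]))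
    · exact hu _ h3 h2
  · classical
    refine ⟨ℤ, inferInstance, T1_int, fun x => if hx : x ∈ H then f ⟨x, hx⟩ else 0, ?_, ?_⟩
    · intro x hx y hy hxc hyc
      show (if hx : x * y ∈ H then f ⟨x * y, hx⟩ else 0) = (if hx : x ∈ H then f ⟨x, hx⟩ else 0) +
        (if hx : y ∈ H then f ⟨y, hx⟩ else 0)
      rw [dif_pos hx, dif_pos hy, dif_pos (H.mul_mem hx hy)]
      exact hf ⟨x, hx⟩ ⟨y, hy⟩ (Subtype.ext hxc) (Subtype.ext hyc)
    · show (if hx : c ∈ H then f ⟨c, hx⟩ else 0) ≠ 0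
      rw [dif_pos hc]
      exact hfc

/-- commutative centralisers -/
theorem PP.ct (htf : ∀ g : Γ, ∀ m : ℕ, m ≠ 0 → g ^ m = 1 → g = 1)
    (hct : ∀ c : Γ, c ≠ 1 → ∀ x y : Γ, x * c = c * x → y * c = c * y → x * y = y * x)
    (hfd : ∀ H : Subgroup Γ, H.FG → ∀ c ∈ H, c ≠ 1 →
      {l : ℕ | l.Prime ∧ ∃ x ∈ H, x ^ l = c}.Finite) : PP T2 Γ where
  roots := roots_of_ct htf hct
  cen := by
    classical
    intro H hH c hc hc1
    -- the centraliser of `c` in `H`
    let Z : Subgroup Γ := H ⊓ Subgroup.centralizer {c}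
    have hmem : ∀ z : Γ, z ∈ H → z * c = c * z → z ∈ Z := by
      intro z hz hzc
      refine Subgroup.mem_inf.2 ⟨hz, ?_⟩
      rw [Subgroup.mem_centralizer_iff]
      rintro _ rfl
      exact hzc.symm
    have hZc : ∀ z ∈ Z, z * c = c * z := by
      intro z hz0
      have hz := (Subgroup.mem_inf.1 hz0).2
      rw [Subgroup.mem_centralizer_iff] at hz
      exact (hz c rfl).symm
    letI inst : CommGroup Z :=
      { (inferInstance : Group Z) with
        mul_comm := fun x y => Subtype.ext (hct c hc1 _ _ (hZc _ x.2) (hZc _ y.2)) }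
    refine ⟨Additive Z, inferInstance, ?_, fun x => if hx : x ∈ Z then Additive.ofMul ⟨x, hx⟩
      else 0, ?_, ?_⟩
    · intro z hz
      have hz1 : (z.toMul : Γ) ≠ 1 := by
        intro h0
        apply hz
        have h1 : (z.toMul : Z) = 1 := Subtype.ext h0
        exact congrArg Additive.ofMul h1
      apply (hfd H hH _ (Subgroup.mem_inf.1 z.toMul.2).1 hz1).subset
      rintro l ⟨hl, y, hy⟩
      refine ⟨hl, (y.toMul : Γ), (Subgroup.mem_inf.1 y.toMul.2).1, ?_⟩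
      have h1 : (Additive.toMul (l • y) : Z) = y.toMul ^ l := rfl
      rw [hy] at h1
      have h2 := congrArg Subtype.val h1
      rw [h2]
      rfl
    · intro x hx y hy hxc hyc
      show (if hx : x * y ∈ Z then Additive.ofMul (⟨x * y, hx⟩ : Z) else 0) =
        (if hx : x ∈ Z then Additive.ofMul (⟨x, hx⟩ : Z) else 0) +
        (if hx : y ∈ Z then Additive.ofMul (⟨y, hx⟩ : Z) else 0)
      rw [dif_pos (hmem x hx hxc), dif_pos (hmem y hy hyc),
        dif_pos (Z.mul_mem (hmem x hx hxc) (hmem y hy hyc))]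
      rfl
    · show (if hx : c ∈ Z then Additive.ofMul (⟨c, hx⟩ : Z) else 0) ≠ 0
      rw [dif_pos (hmem c hc rfl)]
      intro h0
      apply hc1
      have h1 : (⟨c, hmem c hc rfl⟩ : Z) = 1 := h0
      exact congrArg Subtype.val h1

/-- formal diffeomorphisms in one variable -/
theorem PP.formal {K : Type} [Field K] [CharZero K] (ρ : Γ →* (PowerSeries K ≃ₐ[K] PowerSeries K))
    (hρ : Function.Injective ρ) (htf : ∀ g : Γ, ∀ m : ℕ, m ≠ 0 → g ^ m = 1 → g = 1) :
    PP T2 Γ := by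
  have htf' : ∀ g : Γ, ∀ m : ℕ, 0 < m → g ^ m = 1 → g = 1 := fun g m hm hg => htf g m hm.ne' hg
  apply PP.ct htf
  · intro c hc x y hx hy
    exact Fp.cb_of ρ hρ htf' hc x y hx hy
  · intro H hH c hc hc1
    obtain ⟨h1, _⟩ := Fp.cn_all ρ hρ htf' H hH
    apply (h1.fd ⟨c, hc⟩ (fun h0 => hc1 (congrArg Subtype.val h0))).subset
    rintro l ⟨hl, x, hx, hxc⟩
    exact ⟨hl, ⟨x, hx⟩, Subtype.ext hxc⟩

/-- two matrices of size two which commute with a third one which is not a scalar commute -/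
lemma comm_two {K : Type*} [Field K] {Z X Y : Matrix (Fin 2) (Fin 2) K}
    (hZ : ¬ (Z 0 1 = 0 ∧ Z 1 0 = 0 ∧ Z 0 0 = Z 1 1)) (hX : X * Z = Z * X) (hY : Y * Z = Z * Y) :
    X * Y = Y * X := by
  have x1 := congrFun (congrFun hX 0) 0
  have x2 := congrFun (congrFun hX 0) 1
  have x3 := congrFun (congrFun hX 1) 0
  have y1 := congrFun (congrFun hY 0) 0
  have y2 := congrFun (congrFun hY 0) 1
  have y3 := congrFun (congrFun hY 1) 0
  simp only [Matrix.mul_apply, Fin.sum_univ_two] at x1 x2 x3 y1 y2 y3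
  have hne : Z 0 1 ≠ 0 ∨ Z 1 0 ≠ 0 ∨ Z 0 0 - Z 1 1 ≠ 0 := by
    by_contra hcon
    push Not at hcon
    exact hZ ⟨hcon.1, hcon.2.1, sub_eq_zero.1 hcon.2.2⟩
  have g1 : X 0 1 * Y 1 0 = Y 0 1 * X 1 0 := by
    rcases hne with hq | hq | hq
    · apply mul_left_cancel₀ hq
      linear_combination (-X 0 1) * y1 + (Y 0 1) * x1
    · apply mul_left_cancel₀ hq
      linear_combination (Y 1 0) * x1 - (X 1 0) * y1
    · apply mul_left_cancel₀ hq
      linear_combination (-Y 1 0) * x2 - (Y 0 1) * x3 - (X 0 0 - X 1 1) * y1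
  have g2 : Y 0 1 * (X 0 0 - X 1 1) = X 0 1 * (Y 0 0 - Y 1 1) := by
    rcases hne with hq | hq | hq
    · apply mul_left_cancel₀ hq
      linear_combination (Y 0 1) * x2 - (X 0 1) * y2
    · apply mul_left_cancel₀ hq
      linear_combination (-(Z 0 0 - Z 1 1)) * g1 - (Y 0 1) * x3 + (X 0 1) * y3
    · apply mul_left_cancel₀ hq
      linear_combination (Y 0 0 - Y 1 1) * x2 - (X 0 0 - X 1 1) * y2
  have g3 : X 1 0 * (Y 0 0 - Y 1 1) = Y 1 0 * (X 0 0 - X 1 1) := by
    rcases hne with hq | hq | hq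
    · apply mul_left_cancel₀ hq
      linear_combination (X 1 0) * y2 - (Y 1 0) * x2 - (Z 0 0 - Z 1 1) * g1
    · apply mul_left_cancel₀ hq
      linear_combination (-X 1 0) * y3 + (Y 1 0) * x3
    · apply mul_left_cancel₀ hq
      linear_combination (Y 0 0 - Y 1 1) * x3 - (X 0 0 - X 1 1) * y3
  ext i j
  rw [Matrix.mul_apply, Matrix.mul_apply, Fin.sum_univ_two, Fin.sum_univ_two]
  fin_cases i <;> fin_cases j
  · show X 0 0 * Y 0 0 + X 0 1 * Y 1 0 = Y 0 0 * X 0 0 + Y 0 1 * X 1 0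
    linear_combination g1
  · show X 0 0 * Y 0 1 + X 0 1 * Y 1 1 = Y 0 0 * X 0 1 + Y 0 1 * X 1 1
    linear_combination g2
  · show X 1 0 * Y 0 0 + X 1 1 * Y 1 0 = Y 1 0 * X 0 0 + Y 1 1 * X 1 0
    linear_combination g3
  · show X 1 0 * Y 0 1 + X 1 1 * Y 1 1 = Y 1 0 * X 0 1 + Y 1 1 * X 1 1
    linear_combination -g1

/-- torsion-free groups of matrices of size two and determinant one -/
theorem PP.sl_two {K : Type} [Field K] (ρ : Γ →* GL (Fin 2) K) (hρ : Function.Injective ρ)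
    (hdet : ∀ g, (ρ g).val.det = 1) (htf : ∀ g : Γ, ∀ m : ℕ, m ≠ 0 → g ^ m = 1 → g = 1) :
    PP T2 Γ := by
  have htf' : ∀ g : Γ, ∀ m : ℕ, 0 < m → g ^ m = 1 → g = 1 := fun g m hm hg => htf g m hm.ne' hg
  apply PP.ct htf
  · intro c hc x y hx hy
    have hns : ¬ ((ρ c).val 0 1 = 0 ∧ (ρ c).val 1 0 = 0 ∧ (ρ c).val 0 0 = (ρ c).val 1 1) := by
      rintro ⟨h1, h2, h3⟩
      have h4 := hdet c
      rw [Matrix.det_fin_two, h1, h2, h3, mul_zero, sub_zero] at h4
      apply hc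
      apply htf c 2 two_ne_zero
      apply hρ
      rw [map_pow, map_one]
      apply Units.ext
      rw [Units.val_pow_eq_pow_val, Units.val_one, pow_two]
      ext i j
      rw [Matrix.mul_apply, Fin.sum_univ_two, Matrix.one_apply]
      fin_cases i <;> fin_cases j
      · show (ρ c).val 0 0 * (ρ c).val 0 0 + (ρ c).val 0 1 * (ρ c).val 1 0 = _
        rw [h1, h3, h4, zero_mul, add_zero]
        rfl
      · show (ρ c).val 0 0 * (ρ c).val 0 1 + (ρ c).val 0 1 * (ρ c).val 1 1 = _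
        rw [h1, mul_zero, zero_mul, add_zero]
        rfl
      · show (ρ c).val 1 0 * (ρ c).val 0 0 + (ρ c).val 1 1 * (ρ c).val 1 0 = _
        rw [h2, mul_zero, zero_mul, add_zero]
        rfl
      · show (ρ c).val 1 0 * (ρ c).val 0 1 + (ρ c).val 1 1 * (ρ c).val 1 1 = _
        rw [h1, h4, mul_zero, zero_add]
        rfl
    apply hρ
    rw [map_mul, map_mul]
    apply Units.ext
    rw [Units.val_mul, Units.val_mul]
    apply comm_two hns
    · rw [← Units.val_mul, ← Units.val_mul, ← map_mul, ← map_mul, hx]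
    · rw [← Units.val_mul, ← Units.val_mul, ← map_mul, ← map_mul, hy]
  · intro H hH c hc hc1
    have h1 : Cn H := cn_of ρ hρ htf' (Or.inr (Or.inl le_rfl)) H hH
    apply (h1.fd ⟨c, hc⟩ (fun h0 => hc1 (congrArg Subtype.val h0))).subset
    rintro l ⟨hl, x, hx, hxc⟩
    exact ⟨hl, ⟨x, hx⟩, Subtype.ext hxc⟩

end base

end Pool.Agent.U731.WH
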