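import Pool.Agent.U731.WH.Cn
import Pool.Agent.R791.Herm

/-!
# The Dennis trace of nonsingular forms
-/

set_option autoImplicit false
set_option linter.unusedSectionVars false

namespace Pool.Agent.U731.WH

open Pool.Agent.Y72 Pool.Agent.Y72.Log Pool.Agent.Y72.Dt Pool.Agent.Y72.Un Pool.Agent.Y72.Tr H219.Wh
open Pool.Agent.H23R2 (IsCoc pairing isCoc_of_hochschild cf)
open Pool.Agent.R791 (gamA_herm)

universe u v w

variable {Γ : Type u} [Group Γ]

lemma coeff_sub {n : ℕ} (H : Subgroup Γ) {A : (Matrix (Fin n) (Fin n) (MonoidAlgebra ℤ Γ))ˣ}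
    {A' : (Matrix (Fin n) (Fin n) (MonoidAlgebra ℤ H))ˣ} (hA' : A = mpU H.subtype A') (i j : Fin n)
    (g : H) : (A'.val i j).coeff g = (A.val i j).coeff (g : Γ) := by
  have h6 : A.val i j = mp H.subtype (A'.val i j) := by rw [hA']; rfl
  rw [h6]
  have h5 : (MonoidAlgebra.mapDomain H.subtype (A'.val i j)).coeff =
      (A'.val i j).coeff.mapDomain H.subtype := by
    ext g; simp [MonoidAlgebra.mapDomain]
  show _ = (MonoidAlgebra.mapDomain H.subtype (A'.val i j)).coeff (H.subtype g)
  rw [h5, Finsupp.mapDomain_apply H.subtype_injective]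

/-- the Dennis trace of a nonsingular form -/
theorem trace_form (hn : ∀ H : Subgroup Γ, H.FG → Cn H) (ε : ℤ) (hε : ε = 1 ∨ ε = -1) {n : ℕ}
    (A : (Matrix (Fin n) (Fin n) (MonoidAlgebra ℤ Γ))ˣ)
    (hA : ∀ i j g, (A.val i j).coeff g = ε * (A.val j i).coeff g⁻¹) :
    ∃ k : ℕ, 0 < k ∧ ∀ (M : Type v) [AddCommGroup M] (f : Γ → Γ → M),
      (∀ x y z : Γ, f (x * y) z - f x (y * z) + f (z * x) y = 0) →
      k • (∑ i, ∑ j, ((A⁻¹).val i j).coeff.sum fun g b =>
          (A.val j i).coeff.sum fun h a => (b * a) • f g h) = 0 ∧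
      ∀ m : ℕ, 0 < m → ∃ y : M,
        (∑ i, ∑ j, ((A⁻¹).val i j).coeff.sum fun g b =>
          (A.val j i).coeff.sum fun h a => (b * a) • f g h) = m • y := by
  obtain ⟨H, hH, hS⟩ := exists_fg A
  obtain ⟨A', hA'⟩ := exists_sub A H hS
  have : Group.FG H := (Group.fg_iff_subgroup_fg H).2 hH
  have hnH : Cn H := hn H hH
  have h2H : ∀ g : H, g * g = 1 → g = 1 := fun g hg => hnH.tf g 2 (by norm_num) (by rw [pow_two, hg])
  have hA2 : ∀ i j (g : H), (A'.val i j).coeff g = ε * (A'.val j i).coeff g⁻¹ := by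
    intro i j g
    rw [coeff_sub H hA', coeff_sub H hA', hA i j g]
    rfl
  obtain ⟨k, hk, h1⟩ := PD_tors.{v} A' hnH
  refine ⟨k, hk, ?_⟩
  intro M _ f hf
  have hcoc : IsCoc (fun (w x : H) => f ((x⁻¹ : H) * (w : H) : H) (x : H)) :=
    isCoc_of_hochschild (fun x y : H => f x y) (fun x y z => hf x y z)
  have h2 : pairing f (A⁻¹).val A.val =
      PD A' (fun (w x : H) => f ((x⁻¹ : H) * (w : H) : H) (x : H)) := by
    rw [hA', pairing_mpU]
    exact pairing_PD A' (fun x y : H => f x y)
  -- the value at the element of the abelianisation vanishes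
  have h3 : (fun (w x : H) => f ((x⁻¹ : H) * (w : H) : H) (x : H)) 1 (gamA A') = 0 := by
    let φ : H →* Multiplicative M :=
      { toFun := fun x => Multiplicative.ofAdd (f ((x⁻¹ : H) * ((1 : H) : H) : H) (x : H))
        map_one' := by
          have h4 := hcoc 1 1 1
          simp only [mul_one, inv_one] at h4
          have h5 := left_eq_add.1 h4
          apply Multiplicative.toAdd.injective
          simpa using h5
        map_mul' := fun x y => by
          have h4 := hcoc 1 x y
          simp only [mul_one, inv_mul_cancel] at h4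
          apply Multiplicative.toAdd.injective
          simpa using h4 }
    have h4 := gamA_herm h2H ε hε A' hA2 φ
    have h5 := congrArg Multiplicative.toAdd h4
    exact h5
  have h4 : (∑ i, ∑ j, ((A⁻¹).val i j).coeff.sum fun g b =>
      (A.val j i).coeff.sum fun h a => (b * a) • f g h) = pairing f (A⁻¹).val A.val := rfl
  rw [h4, h2]
  have h3 : f ((gamA A')⁻¹ * 1 : H) (gamA A' : H) = 0 := h3
  have h5 := h1 M _ hcoc
  rw [h3, sub_zero] at h5
  refine ⟨h5, fun m hm => ?_⟩
  have h6 := PD_div A' hnH hcoc m hm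
  rw [h3, sub_zero] at h6
  exact h6

end Pool.Agent.U731.WH
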