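import Mathlib

/-!
# Groups with unique roots in which nontrivial elements survive in their centralisers
-/

set_option autoImplicit false

namespace Pool.Agent.U731.WH

/-- a property of abelian groups -/
abbrev Tgt := ∀ (B : Type) [AddCommGroup B], Prop

/-- Unique roots, and in every finitely generated subgroup `H` and for every `c ≠ 1` in `H` there is
an additive function on the centraliser of `c` in `H` with values in a group with the property `T`
which does not vanish at `c`. -/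
structure PP (T : Tgt) (Γ : Type) [Group Γ] : Prop where
  roots : ∀ l : ℕ, l ≠ 0 → ∀ x y : Γ, x ^ l = y ^ l → x = y
  cen : ∀ H : Subgroup Γ, H.FG → ∀ c ∈ H, c ≠ 1 → ∃ (B : Type) (_ : AddCommGroup B), T B ∧
    ∃ f : Γ → B, (∀ x ∈ H, ∀ y ∈ H, x * c = c * x → y * c = c * y → f (x * y) = f x + f y) ∧
      f c ≠ 0

variable {T : Tgt} {Γ : Type} [Group Γ]

lemma PP.torsionFree (h : PP T Γ) {g : Γ} {l : ℕ} (hl : l ≠ 0) (hg : g ^ l = 1) : g = 1 :=
  h.roots l hl g 1 (by rw [hg, one_pow])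

lemma fg_map {Q : Type} [Group Q] {H : Subgroup Γ} (hH : H.FG) (π : Γ →* Q) : (H.map π).FG := by
  classical
  obtain ⟨S, hS⟩ := hH
  refine ⟨S.image π, ?_⟩
  rw [Finset.coe_image, ← MonoidHom.map_closure, hS]

/-- residual closure -/
theorem PP.residual (h : ∀ g : Γ, g ≠ 1 → ∃ (Q : Type) (_ : Group Q) (π : Γ →* Q),
    PP T Q ∧ π g ≠ 1) : PP T Γ where
  roots := by
    intro l hl x y hxy
    by_contra hne
    obtain ⟨Q, _, π, hQ, hg⟩ := h (x * y⁻¹) (fun hc => hne (mul_inv_eq_one.1 hc))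
    apply hg
    rw [map_mul, map_inv, mul_inv_eq_one]
    apply hQ.roots l hl
    rw [← map_pow, ← map_pow, hxy]
  cen := by
    intro H hH c hc hc1
    obtain ⟨Q, _, π, hQ, hg⟩ := h c hc1
    obtain ⟨B, _, hB, f, hf, hfc⟩ := hQ.cen (H.map π) (fg_map hH π) (π c)
      (Subgroup.mem_map_of_mem π hc) hg
    refine ⟨B, inferInstance, hB, fun x => f (π x), ?_, hfc⟩
    intro x hx y hy hxc hyc
    show f (π (x * y)) = f (π x) + f (π y)
    rw [map_mul]
    apply hf _ (Subgroup.mem_map_of_mem π hx) _ (Subgroup.mem_map_of_mem π hy)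
    · rw [← map_mul, hxc, map_mul]
    · rw [← map_mul, hyc, map_mul]

theorem PP.of_injective {Q : Type} [Group Q] (hQ : PP T Q) (π : Γ →* Q)
    (hπ : Function.Injective π) : PP T Γ :=
  PP.residual fun g hg => ⟨Q, inferInstance, π, hQ, fun hc => hg (hπ (by rw [hc, map_one]))⟩

theorem PP.pi {ι : Type} {G : ι → Type} [∀ i, Group (G i)] (h : ∀ i, PP T (G i)) :
    PP T (∀ i, G i) := by
  apply PP.residual
  intro g hg
  obtain ⟨i, hi⟩ := Function.ne_iff.1 hg
  exact ⟨G i, inferInstance, Pi.evalMonoidHom G i, h i, hi⟩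

/-- local closure -/
theorem PP.local (h : ∀ H : Subgroup Γ, H.FG → PP T H) : PP T Γ where
  roots := by
    intro l hl x y hxy
    set H : Subgroup Γ := Subgroup.closure {x, y} with hH
    have hx : x ∈ H := Subgroup.subset_closure (by simp)
    have hy : y ∈ H := Subgroup.subset_closure (by simp)
    have hfg : H.FG := by
      classical
      exact ⟨{x, y}, by rw [hH]; congr 1; ext; simp⟩
    have h1 := (h H hfg).roots l hl ⟨x, hx⟩ ⟨y, hy⟩ (Subtype.ext (by simpa using hxy))
    exact congrArg Subtype.val h1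
  cen := by
    classical
    intro H hH c hc hc1
    have hT : (⊤ : Subgroup H).FG := (Group.fg_def.1 ((Group.fg_iff_subgroup_fg H).2 hH))
    obtain ⟨B, _, hB, f, hf, hfc⟩ := (h H hH).cen ⊤ hT ⟨c, hc⟩ trivial
      (fun h0 => hc1 (congrArg Subtype.val h0))
    refine ⟨B, inferInstance, hB, fun x => if hx : x ∈ H then f ⟨x, hx⟩ else 0, ?_, ?_⟩
    · intro x hx y hy hxc hyc
      show (if hx : x * y ∈ H then f ⟨x * y, hx⟩ else 0) = (if hx : x ∈ H then f ⟨x, hx⟩ else 0) +
        (if hx : y ∈ H then f ⟨y, hx⟩ else 0)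
      rw [dif_pos hx, dif_pos hy, dif_pos (H.mul_mem hx hy)]
      exact hf ⟨x, hx⟩ trivial ⟨y, hy⟩ trivial (Subtype.ext hxc) (Subtype.ext hyc)
    · show (if hx : c ∈ H then f ⟨c, hx⟩ else 0) ≠ 0
      rw [dif_pos hc]
      exact hfc

/-- roots are unique if the nontrivial elements have infinite order and commutative centralisers -/
theorem roots_of_ct (htf : ∀ g : Γ, ∀ m : ℕ, m ≠ 0 → g ^ m = 1 → g = 1)
    (hct : ∀ c : Γ, c ≠ 1 → ∀ x y : Γ, x * c = c * x → y * c = c * y → x * y = y * x)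
    (l : ℕ) (hl : l ≠ 0) (x y : Γ) (hxy : x ^ l = y ^ l) : x = y := by
  by_cases h3 : x ^ l = 1
  · rw [htf x l hl h3, htf y l hl (by rw [← hxy, h3])]
  · have ha : x * x ^ l = x ^ l * x := by rw [← pow_succ, ← pow_succ']
    have hb : y * x ^ l = x ^ l * y := by rw [hxy, ← pow_succ, ← pow_succ']
    have h4 : Commute x y := hct _ h3 x y ha hb
    have h5 : (x * y⁻¹) ^ l = 1 := by
      rw [h4.inv_right.mul_pow, hxy, inv_pow, mul_inv_cancel]
    exact mul_inv_eq_one.1 (htf _ l hl h5)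

/-- torsion-free groups in which the centralisers of the nontrivial elements are free abelian -/
theorem PP.of_free_centralisers (hT : T ℤ) (htf : ∀ g : Γ, ∀ m : ℕ, m ≠ 0 → g ^ m = 1 → g = 1)
    (hce : ∀ c : Γ, c ≠ 1 → ∃ (ι : Type) (e : Subgroup.centralizer ({c} : Set Γ) →*
      Multiplicative (ι →₀ ℤ)), Function.Injective e) : PP T Γ where
  roots := by
    apply roots_of_ct htf
    intro c hc x y hx hy
    obtain ⟨ι, e, he⟩ := hce c hc
    have hmem : ∀ z : Γ, z * c = c * z → z ∈ Subgroup.centralizer ({c} : Set Γ) := by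
      intro z hz
      rw [Subgroup.mem_centralizer_iff]
      rintro _ rfl
      exact hz.symm
    have h1 : (⟨x, hmem x hx⟩ : Subgroup.centralizer ({c} : Set Γ)) * ⟨y, hmem y hy⟩ =
        ⟨y, hmem y hy⟩ * ⟨x, hmem x hx⟩ := by
      apply he
      rw [map_mul, map_mul, mul_comm]
    exact congrArg Subtype.val h1
  cen := by
    classical
    intro H _ c _ hc1
    obtain ⟨ι, e, he⟩ := hce c hc1
    have hmem : ∀ z : Γ, z * c = c * z → z ∈ Subgroup.centralizer ({c} : Set Γ) := by
      intro z hz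
      rw [Subgroup.mem_centralizer_iff]
      rintro _ rfl
      exact hz.symm
    have hne : (e ⟨c, hmem c rfl⟩).toAdd ≠ 0 := by
      intro h0
      apply hc1
      have h1 : (⟨c, hmem c rfl⟩ : Subgroup.centralizer ({c} : Set Γ)) = 1 := by
        apply he
        rw [map_one]
        exact h0
      exact congrArg Subtype.val h1
    obtain ⟨i, hi⟩ := Finsupp.ne_iff.1 hne
    refine ⟨ℤ, inferInstance, hT, fun x => if hx : x ∈ Subgroup.centralizer ({c} : Set Γ) then
      (e ⟨x, hx⟩).toAdd i else 0, ?_, ?_⟩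
    · intro x _ y _ hx hy
      show (if hx : x * y ∈ _ then (e ⟨x * y, hx⟩).toAdd i else 0) = (if hx : x ∈ _ then
        (e ⟨x, hx⟩).toAdd i else 0) + (if hx : y ∈ _ then (e ⟨y, hx⟩).toAdd i else 0)
      rw [dif_pos (hmem x hx), dif_pos (hmem y hy), dif_pos (mul_mem (hmem x hx) (hmem y hy))]
      have h2 : (⟨x * y, mul_mem (hmem x hx) (hmem y hy)⟩ :
          Subgroup.centralizer ({c} : Set Γ)) = ⟨x, hmem x hx⟩ * ⟨y, hmem y hy⟩ := rfl
      rw [h2, map_mul]
      rfl
    · show (if hx : c ∈ _ then (e ⟨c, hx⟩).toAdd i else 0) ≠ 0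
      rw [dif_pos (hmem c rfl)]
      exact hi

/-- free abelian groups -/
theorem PP.freeAb (hT : T ℤ) (ι : Type) : PP T (Multiplicative (ι →₀ ℤ)) := by
  apply PP.of_free_centralisers hT
  · intro g m hm hg
    have h1 : m • g.toAdd = 0 := hg
    have h2 : g.toAdd = 0 := (smul_eq_zero.1 h1).resolve_left hm
    exact h2
  · intro c _
    exact ⟨ι, Subgroup.subtype _, Subgroup.subtype_injective _⟩

end Pool.Agent.U731.WH
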