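import Pool.Agent.U731.WH.Pp

/-!
# Restricted permutational wreath products
-/

set_option autoImplicit false
set_option linter.unusedSectionVars false

namespace Pool.Agent.U731.WH

open scoped Pointwise

/-- The unrestricted permutational wreath product of `G` and `B`, `B` acting on `X`: the pairs of a
function `X → G` and an element of `B`. -/
@[ext]
structure PW (G X B : Type) where
  /-- the function -/
  left : X → G
  /-- the element of the acting group -/
  right : B

namespace PW

variable {G X B : Type} [Group G] [Group B] [MulAction B X]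

instance : Mul (PW G X B) where
  mul a b := ⟨fun x => a.left x * b.left (a.right⁻¹ • x), a.right * b.right⟩

instance : One (PW G X B) where one := ⟨fun _ => 1, 1⟩

instance : Inv (PW G X B) where
  inv a := ⟨fun x => (a.left (a.right • x))⁻¹, a.right⁻¹⟩

lemma mul_left (a b : PW G X B) (x : X) :
    (a * b).left x = a.left x * b.left (a.right⁻¹ • x) := rfl

lemma mul_right (a b : PW G X B) : (a * b).right = a.right * b.right := rfl

lemma one_left (x : X) : (1 : PW G X B).left x = 1 := rfl

lemma one_right : (1 : PW G X B).right = 1 := rfl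

lemma inv_left (a : PW G X B) (x : X) : a⁻¹.left x = (a.left (a.right • x))⁻¹ := rfl

lemma inv_right (a : PW G X B) : a⁻¹.right = a.right⁻¹ := rfl

instance : Group (PW G X B) where
  mul_assoc a b c := by
    apply PW.ext
    · funext x
      simp only [mul_left, mul_right, mul_inv_rev, mul_smul, mul_assoc]
    · simp only [mul_right, mul_assoc]
  one_mul a := by
    apply PW.ext
    · funext x
      simp only [mul_left, one_left, one_right, inv_one, one_smul, one_mul]
    · simp only [mul_right, one_right, one_mul]
  mul_one a := by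
    apply PW.ext
    · funext x
      simp only [mul_left, one_left, mul_one]
    · simp only [mul_right, one_right, mul_one]
  inv_mul_cancel a := by
    apply PW.ext
    · funext x
      simp only [mul_left, inv_left, inv_right, inv_inv, inv_mul_cancel, one_left]
    · simp only [mul_right, inv_right, inv_mul_cancel, one_right]

/-- the projection -/
def rightHom : PW G X B →* B where
  toFun := PW.right
  map_one' := rfl
  map_mul' _ _ := rfl

/-- the inclusion of the acting group -/
def inr : B →* PW G X B where
  toFun b := ⟨fun _ => 1, b⟩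
  map_one' := rfl
  map_mul' a b := by
    apply PW.ext
    · funext x
      simp only [mul_left, one_mul]
    · rfl

lemma inr_left (b : B) (x : X) : (inr b : PW G X B).left x = 1 := rfl

lemma inr_right (b : B) : (inr b : PW G X B).right = b := rfl

/-- the support of an element -/
def supp (a : PW G X B) : Set X := {x | a.left x ≠ 1}

variable (G X B) in
/-- the restricted wreath product -/
def fin : Subgroup (PW G X B) where
  carrier := {a | a.supp.Finite}
  one_mem' := by
    show Set.Finite {x | (1 : PW G X B).left x ≠ 1}
    simp [one_left]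
  mul_mem' {a b} ha hb := by
    have h1 : (a * b).supp ⊆ a.supp ∪ a.right • b.supp := by
      intro x hx
      by_contra hcon
      rw [Set.mem_union, not_or, Set.mem_smul_set_iff_inv_smul_mem] at hcon
      obtain ⟨h2, h3⟩ := hcon
      apply hx
      rw [mul_left, not_not.1 h2, not_not.1 h3, one_mul]
    exact (ha.union (hb.smul_set)).subset h1
  inv_mem' {a} ha := by
    have h1 : (a⁻¹).supp ⊆ a.right⁻¹ • a.supp := by
      intro x hx
      rw [Set.mem_smul_set_iff_inv_smul_mem, inv_inv]
      intro h2
      apply hx
      rw [inv_left, h2, inv_one]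
    exact (ha.smul_set).subset h1

lemma mem_fin {a : PW G X B} : a ∈ fin G X B ↔ {x | a.left x ≠ 1}.Finite := Iff.rfl

lemma pow_right (a : PW G X B) (n : ℕ) : (a ^ n).right = a.right ^ n :=
  map_pow (rightHom : PW G X B →* B) a n

lemma pow_left_fix (a : PW G X B) {x : X} (hx : a.right • x = x) (n : ℕ) :
    (a ^ n).left x = (a.left x) ^ n := by
  induction n with
  | zero => rw [pow_zero, pow_zero, one_left]
  | succ n ih =>
    have h1 : a.right⁻¹ • x = x := by
      rw [inv_smul_eq_iff, hx]
    rw [pow_succ', mul_left, h1, ih, pow_succ']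

lemma pow_left_congr {a a' : PW G X B} (hr : a.right = a'.right) (n : ℕ) (x : X)
    (h : ∀ j : ℕ, a.left ((a.right ^ j)⁻¹ • x) = a'.left ((a.right ^ j)⁻¹ • x)) :
    (a ^ n).left x = (a' ^ n).left x := by
  induction n generalizing x with
  | zero => rw [pow_zero, pow_zero]
  | succ n ih =>
    rw [pow_succ', pow_succ', mul_left, mul_left, ← hr]
    have h0 := h 0
    rw [pow_zero, inv_one, one_smul] at h0
    rw [h0, ih (a.right⁻¹ • x) (by
      intro j
      have := h (j + 1)
      rwa [pow_succ', mul_inv_rev, mul_smul] at this)]

/-- roots are unique -/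
theorem root_unique (hG : ∀ l : ℕ, l ≠ 0 → ∀ x y : G, x ^ l = y ^ l → x = y)
    (hB : ∀ l : ℕ, l ≠ 0 → ∀ x y : B, x ^ l = y ^ l → x = y)
    (hiso : ∀ (b : B) (x : X) (l : ℕ), l ≠ 0 → b ^ l • x = x → b • x = x)
    {l : ℕ} (hl : l ≠ 0) {a a' : PW G X B} (ha : a ∈ fin G X B) (ha' : a' ∈ fin G X B)
    (h : a ^ l = a' ^ l) : a = a' := by
  have hr : a.right = a'.right := hB l hl _ _ (by rw [← pow_right, ← pow_right, h])
  have hD : {x | a.left x ≠ a'.left x}.Finite := by
    apply (Set.Finite.union (mem_fin.1 ha) (mem_fin.1 ha')).subset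
    intro x hx
    by_contra hcon
    simp only [Set.mem_union, Set.mem_ofPred_eq, not_or, not_not] at hcon
    exact hx (by rw [hcon.1, hcon.2])
  apply PW.ext _ hr
  by_contra hne
  obtain ⟨x, hx⟩ := Function.ne_iff.1 hne
  by_cases hfix : a.right • x = x
  · apply hx
    apply hG l hl
    rw [← pow_left_fix a hfix, ← pow_left_fix a' (by rw [← hr]; exact hfix), h]
  · -- an infinite orbit
    have hinj : Function.Injective (fun j : ℕ => (a.right ^ j)⁻¹ • x) := by
      have key : ∀ i j : ℕ, i < j → (a.right ^ i)⁻¹ • x = (a.right ^ j)⁻¹ • x → False := by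
        intro i j hij he
        apply hfix
        apply hiso _ _ (j - i) (by omega)
        have h1 : a.right ^ j • ((a.right ^ i)⁻¹ • x) = x := by rw [he, smul_inv_smul]
        have h2 : a.right ^ j = a.right ^ (j - i) * a.right ^ i := by
          rw [← pow_add]
          congr 1
          omega
        rwa [h2, mul_smul, smul_inv_smul] at h1
      intro i j he
      rcases lt_trichotomy i j with h1 | h1 | h1
      · exact (key i j h1 he).elim
      · exact h1
      · exact (key j i h1 he.symm).elim
    have hfin : {j : ℕ | a.left ((a.right ^ j)⁻¹ • x) ≠ a'.left ((a.right ^ j)⁻¹ • x)}.Finite :=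
      hD.preimage hinj.injOn
    have hne0 : {j : ℕ | a.left ((a.right ^ j)⁻¹ • x) ≠ a'.left ((a.right ^ j)⁻¹ • x)}.Nonempty :=
      ⟨0, by simpa using hx⟩
    obtain ⟨m, hm, hmax⟩ := Set.exists_max_image _ id hfin hne0
    set y : X := (a.right ^ m)⁻¹ • x with hy
    have hy1 : ∀ j : ℕ, a.left ((a.right ^ j)⁻¹ • (a.right⁻¹ • y)) =
        a'.left ((a.right ^ j)⁻¹ • (a.right⁻¹ • y)) := by
      intro j
      by_contra hcon
      have h1 : (a.right ^ j)⁻¹ • (a.right⁻¹ • y) = (a.right ^ (m + 1 + j))⁻¹ • x := by
        rw [hy, smul_smul, smul_smul]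
        congr 1
        rw [← mul_inv_rev, ← mul_inv_rev, pow_add, pow_succ, mul_assoc, ← pow_succ']
      rw [h1] at hcon
      have := hmax (m + 1 + j) hcon
      simp only [id] at this
      omega
    obtain ⟨k, rfl⟩ := Nat.exists_eq_succ_of_ne_zero hl
    have h2 : (a ^ (k + 1)).left y = (a' ^ (k + 1)).left y := by rw [show a ^ (k + 1) = _ from h]
    rw [pow_succ', pow_succ', mul_left, mul_left, ← hr,
      pow_left_congr hr k (a.right⁻¹ • y) hy1] at h2
    exact hm (mul_right_cancel h2)

end PW

variable {T : Tgt} {Γ G X B : Type} [Group Γ] [Group G] [Group B] [MulAction B X]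

/-- the values of a finitely generated subgroup generate a finitely generated group -/
lemma exists_values (φ : Γ →* PW G X B) (hφ : ∀ g : Γ, φ g ∈ PW.fin G X B) {H : Subgroup Γ}
    (hH : H.FG) : ∃ K : Subgroup G, K.FG ∧ ∀ g ∈ H, ∀ x, (φ g).left x ∈ K := by
  classical
  obtain ⟨S, hS⟩ := hH
  have hfin : ∀ s : Γ, (Set.range (φ s).left).Finite := by
    intro s
    have h1 : Set.range (φ s).left ⊆ insert 1 ((φ s).left '' {x | (φ s).left x ≠ 1}) := by
      rintro _ ⟨x, rfl⟩
      by_cases hx : (φ s).left x = 1
      · rw [hx]
        exact Set.mem_insert _ _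
      · exact Set.mem_insert_of_mem _ ⟨x, hx, rfl⟩
    exact (((PW.mem_fin.1 (hφ s)).image _).insert 1).subset h1
  have hU : (⋃ s ∈ (S : Set Γ), Set.range (φ s).left).Finite :=
    S.finite_toSet.biUnion fun s _ => hfin s
  refine ⟨Subgroup.closure (⋃ s ∈ (S : Set Γ), Set.range (φ s).left),
    ⟨hU.toFinset, by rw [hU.coe_toFinset]⟩, ?_⟩
  set K := Subgroup.closure (⋃ s ∈ (S : Set Γ), Set.range (φ s).left) with hK
  intro g hg
  rw [← hS] at hg
  induction hg using Subgroup.closure_induction with
  | mem s hs =>
    intro x
    apply Subgroup.subset_closure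
    exact Set.mem_biUnion hs ⟨x, rfl⟩
  | one =>
    intro x
    rw [map_one, PW.one_left]
    exact K.one_mem
  | mul a b _ _ iha ihb =>
    intro x
    rw [map_mul, PW.mul_left]
    exact K.mul_mem (iha x) (ihb _)
  | inv a _ iha =>
    intro x
    rw [map_inv, PW.inv_left]
    exact K.inv_mem (iha _)

/-- **closure under restricted permutational wreath products with isolated stabilisers** -/
theorem PP.wreath (hG : PP T G) (hB : PP T B)
    (hiso : ∀ (b : B) (x : X) (l : ℕ), l ≠ 0 → b ^ l • x = x → b • x = x)
    (φ : Γ →* PW G X B) (hinj : Function.Injective φ) (hφ : ∀ g : Γ, φ g ∈ PW.fin G X B) :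
    PP T Γ where
  roots := by
    intro l hl x y hxy
    apply hinj
    apply PW.root_unique hG.roots hB.roots hiso hl (hφ x) (hφ y)
    rw [← map_pow, ← map_pow, hxy]
  cen := by
    intro H hH c hc hc1
    by_cases hr : (φ c).right = 1
    · -- an element of the base
      have hne : (φ c).left ≠ fun _ => 1 := by
        intro h0
        apply hc1
        apply hinj
        rw [map_one]
        exact PW.ext h0 hr
      obtain ⟨x0, hx0⟩ := Function.ne_iff.1 hne
      obtain ⟨K, hK, hKH⟩ := exists_values φ hφ hH
      obtain ⟨A, _, hA, f, hf, hfc⟩ := hG.cen K hK ((φ c).left x0) (hKH c hc x0) hx0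
      -- the elements of the centraliser fix the support
      have hfix : ∀ g : Γ, g * c = c * g → (φ g).right • x0 = x0 := by
        intro g hg
        have hcomm : ∀ x, (φ g).left x * (φ c).left ((φ g).right⁻¹ • x) =
            (φ c).left x * (φ g).left x := by
          intro x
          have h1 := congrArg (fun z : PW G X B => z.left x) (congrArg φ hg)
          simp only [map_mul, PW.mul_left] at h1
          rw [h1, hr, inv_one, one_smul]
        have hstep : ∀ x, (φ c).left x ≠ 1 → (φ c).left ((φ g).right⁻¹ • x) ≠ 1 := by
          intro x hx h1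
          apply hx
          have h2 := hcomm x
          rw [h1, mul_one] at h2
          exact (mul_eq_right.1 h2.symm)
        have hall : ∀ j : ℕ, (φ c).left (((φ g).right ^ j)⁻¹ • x0) ≠ 1 := by
          intro j
          induction j with
          | zero => simpa using hx0
          | succ j ih =>
            have h1 := hstep _ ih
            rwa [smul_smul, ← mul_inv_rev, ← pow_succ] at h1
        -- two coincide
        have hninj : ¬ Function.Injective (fun j : ℕ => ((φ g).right ^ j)⁻¹ • x0) := by
          intro hi
          have h1 : (Set.range (fun j : ℕ => ((φ g).right ^ j)⁻¹ • x0)).Infinite :=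
            Set.infinite_range_of_injective hi
          apply h1
          apply (PW.mem_fin.1 (hφ c)).subset
          rintro _ ⟨j, rfl⟩
          exact hall j
        have key : ∀ i j : ℕ, i < j → ((φ g).right ^ i)⁻¹ • x0 = ((φ g).right ^ j)⁻¹ • x0 →
            (φ g).right • x0 = x0 := by
          intro i j hij he
          apply hiso _ _ (j - i) (by omega)
          have h1 : (φ g).right ^ j • (((φ g).right ^ i)⁻¹ • x0) = x0 := by
            rw [he, smul_inv_smul]
          have h2 : (φ g).right ^ j = (φ g).right ^ (j - i) * (φ g).right ^ i := by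
            rw [← pow_add]
            congr 1
            omega
          rwa [h2, mul_smul, smul_inv_smul] at h1
        simp only [Function.Injective, not_forall] at hninj
        obtain ⟨i, j, he, hij⟩ := hninj
        rcases lt_or_gt_of_ne hij with h1 | h1
        · exact key i j h1 he
        · exact key j i h1 he.symm
      have hfix' : ∀ g : Γ, g * c = c * g → (φ g).right⁻¹ • x0 = x0 := by
        intro g hg
        rw [inv_smul_eq_iff, hfix g hg]
      have hcomm : ∀ g : Γ, g * c = c * g →
          (φ g).left x0 * (φ c).left x0 = (φ c).left x0 * (φ g).left x0 := by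
        intro g hg
        have h1 := congrArg (fun z : PW G X B => z.left x0) (congrArg φ hg)
        simp only [map_mul, PW.mul_left] at h1
        rwa [hr, inv_one, one_smul, hfix' g hg] at h1
      refine ⟨A, inferInstance, hA, fun g => f ((φ g).left x0), ?_, hfc⟩
      intro x hx y hy hxc hyc
      show f ((φ (x * y)).left x0) = _
      rw [map_mul, PW.mul_left, hfix' x hxc]
      exact hf _ (hKH x hx x0) _ (hKH y hy x0) (hcomm x hxc) (hcomm y hyc)
    · -- an element which is detected by the quotient
      let π : Γ →* B := PW.rightHom.comp φ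
      obtain ⟨A, _, hA, f, hf, hfc⟩ := hB.cen (H.map π) (fg_map hH π) (π c)
        (Subgroup.mem_map_of_mem π hc) hr
      refine ⟨A, inferInstance, hA, fun x => f (π x), ?_, hfc⟩
      intro x hx y hy hxc hyc
      show f (π (x * y)) = f (π x) + f (π y)
      rw [map_mul]
      apply hf _ (Subgroup.mem_map_of_mem π hx) _ (Subgroup.mem_map_of_mem π hy)
      · rw [← map_mul, hxc, map_mul]
      · rw [← map_mul, hyc, map_mul]

end Pool.Agent.U731.WH
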